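import Mathlib

/-!
# Package Bnd: the bound for the size of the codes

`s = sqrt N`, `K = s + 1`: `3 N ≤ 3 (s + 1) ^ 2 ≤ 16 ^ s` for `s ≥ 1`, so `(3 N) ^ K ≤ 2 ^ (4 s (s + 1)) ≤
2 ^ (8 s ^ 2) ≤ 2 ^ (8 N)`. `q ^ e ≤ (3 N) ^ k q` (`q = p ^ k`, `e = 1` or `p ^ (e - 1) < 3 N`).
-/

set_option autoImplicit false

namespace Pool.Agent.H63LB

private theorem bnd_sixteen (s : ℕ) (hs : 1 ≤ s) : 3 * (s + 1) ^ 2 ≤ 16 ^ s := by
  induction s, hs using Nat.le_induction with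
  | base => norm_num
  | succ s hs ih =>
    calc 3 * (s + 1 + 1) ^ 2 ≤ 16 * (3 * (s + 1) ^ 2) := by nlinarith
      _ ≤ 16 * 16 ^ s := Nat.mul_le_mul_left _ ih
      _ = 16 ^ (s + 1) := by ring

theorem band_bound {p k q N e B : ℕ} (hp : p.Prime) (hk : 0 < k) (hqp : q = p ^ k) (hN : 1 ≤ N)
    (hB : q ^ N ≤ B) (he : e = 1 ∨ p ^ (e - 1) < 3 * N) (he1 : 1 ≤ e) :
    (q ^ e) ^ (Nat.sqrt N + 1 + 1) ≤ B ^ 20 ∧ N ≤ (Nat.sqrt N + 1) * (Nat.sqrt N + 1) := by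
  have hlt : N < (Nat.sqrt N + 1) * (Nat.sqrt N + 1) := Nat.lt_succ_sqrt N
  have hle : Nat.sqrt N * Nat.sqrt N ≤ N := Nat.sqrt_le N
  have hs1 : 1 ≤ Nat.sqrt N := Nat.le_sqrt.2 (by omega)
  refine ⟨?_, hlt.le⟩
  generalize Nat.sqrt N = s at *
  have h2p : 2 ≤ p := hp.two_le
  have hq2 : 2 ^ k ≤ q := by
    rw [hqp]
    exact Nat.pow_le_pow_left h2p k
  have hq1 : 1 ≤ q := le_trans Nat.one_le_two_pow hq2
  have hB1 : 1 ≤ B := le_trans (Nat.one_le_pow _ _ hq1) hB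
  have h3 : 3 * N ≤ 16 ^ s := by
    have := bnd_sixteen s hs1
    nlinarith
  have h3' : 1 ≤ 3 * N := by omega
  have hqe : q ^ e ≤ q * (3 * N) ^ k := by
    obtain ⟨f, rfl⟩ : ∃ f, e = f + 1 := ⟨e - 1, by omega⟩
    rw [pow_succ, mul_comm]
    apply Nat.mul_le_mul_left
    rcases he with h | h
    · have : f = 0 := by omega
      rw [this, pow_zero]
      exact Nat.one_le_pow _ _ h3'
    · rw [Nat.add_sub_cancel] at h
      rw [hqp, ← pow_mul, mul_comm k f, pow_mul]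
      exact Nat.pow_le_pow_left h.le k
  have ha : q ^ (s + 1 + 1) ≤ B ^ 3 := by
    calc q ^ (s + 1 + 1) ≤ q ^ (N * 3) := Nat.pow_le_pow_right hq1 (by nlinarith)
      _ = (q ^ N) ^ 3 := pow_mul q N 3
      _ ≤ B ^ 3 := Nat.pow_le_pow_left hB 3
  have hb : ((3 * N) ^ k) ^ (s + 1 + 1) ≤ B ^ 12 := by
    calc ((3 * N) ^ k) ^ (s + 1 + 1) ≤ ((16 ^ s) ^ k) ^ (s + 1 + 1) :=
          Nat.pow_le_pow_left (Nat.pow_le_pow_left h3 k) _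
      _ = (2 ^ k) ^ (4 * (s * (s + 1 + 1))) := by
          have : (16 : ℕ) = 2 ^ 4 := by norm_num
          rw [this, ← pow_mul, ← pow_mul, ← pow_mul, ← pow_mul]
          congr 1
          ring
      _ ≤ (2 ^ k) ^ (N * 12) := Nat.pow_le_pow_right Nat.one_le_two_pow (by nlinarith)
      _ ≤ q ^ (N * 12) := Nat.pow_le_pow_left hq2 _
      _ = (q ^ N) ^ 12 := pow_mul q N 12
      _ ≤ B ^ 12 := Nat.pow_le_pow_left hB 12
  calc (q ^ e) ^ (s + 1 + 1) ≤ (q * (3 * N) ^ k) ^ (s + 1 + 1) := Nat.pow_le_pow_left hqe _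
    _ = q ^ (s + 1 + 1) * ((3 * N) ^ k) ^ (s + 1 + 1) := mul_pow _ _ _
    _ ≤ B ^ 3 * B ^ 12 := Nat.mul_le_mul ha hb
    _ = B ^ 15 := by ring
    _ ≤ B ^ 20 := Nat.pow_le_pow_right hB1 (by norm_num)

end Pool.Agent.H63LB
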