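import Pool.Agent.H63LB.Rel
import Pool.Agent.PTr.Orbit2

/-!
# Package Dlt: definability of the relation `RR` and of good pairs

Every function is a `DFun m`, the parameters of `T` are the functions `τ i`. Bounds: `q ^ N ≤ B`,
`q ^ e ≤ B`, `(q ^ e) ^ (K + 1) ≤ B`, `N ≤ K * K`. (`path_delta` in the context of all parameters.)
-/

set_option autoImplicit false

namespace Pool.Agent.H63LB

open Finset Polynomial Pool.Agent.Grz Pool.Agent.GAvg Pool.Agent.PTr Pool.Agent.MTr
open Pool.Agent.LPC Pool.Agent.ECD Pool.Agent.LinU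

variable {n m r : ℕ} {T : ℕ → (Fin n → ℕ) → ℕ}

private theorem Dlt_two {p N : ℕ} (h2 : 2 ≤ p) (h1 : 1 ≤ N) : 2 ≤ p ^ N :=
  h2.trans (Nat.le_self_pow (by omega) p)

private theorem Dlt_ball {b : (Fin m → ℕ) → ℕ} (hb : DFun m b) {P : ℕ → (Fin m → ℕ) → Prop}
    (hP : Delta0 (m + 1) (fun w => P (w 0) (fun i => w i.succ))) :
    Delta0 m (fun v => ∀ x, x < b v → P x v) := by
  have h := Delta0.ballFun hb (P := fun x v => x < b v → P x v)
    ((Delta0.ltFun (DFun.proj 0) hb.weak).imp hP)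
  refine h.of_iff fun v => ?_
  exact ⟨fun h x _ hx => h x hx, fun h x hx => h x hx.le hx⟩

private theorem Dlt_bex {b : (Fin m → ℕ) → ℕ} (hb : DFun m b) {P : ℕ → (Fin m → ℕ) → Prop}
    (hP : Delta0 (m + 1) (fun w => P (w 0) (fun i => w i.succ))) :
    Delta0 m (fun v => ∃ x, x < b v ∧ P x v) := by
  have h := Delta0.bexFun hb (P := fun x v => x < b v ∧ P x v)
    ((Delta0.ltFun (DFun.proj 0) hb.weak).and hP)
  refine h.of_iff fun v => ?_
  exact ⟨fun ⟨x, hx, h⟩ => ⟨x, hx.le, hx, h⟩, fun ⟨x, _, hx, h⟩ => ⟨x, hx, h⟩⟩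

theorem ax_dfun {k : ℕ} {a : Fin k → (Fin m → ℕ) → ℕ} (ha : ∀ κ, DFun m (a κ)) (i : ℕ) :
    DFun m (fun v => ax (fun κ => a κ v) i) := by
  unfold ax
  by_cases h : i < k
  · simp only [dif_pos h]
    exact ha _
  · simp only [dif_neg h]
    exact DFun.const 0

theorem ac_dfun (hT : DFun (n + 1) (fun w => T (w 0) (fun i => w i.succ)))
    {τ : Fin n → (Fin m → ℕ) → ℕ} (hτ : ∀ i, DFun m (τ i)) {q N B i j : (Fin m → ℕ) → ℕ}
    (hq : DFun m q) (hN : DFun m N) (hB : DFun m B) (hi : DFun m i) (hj : DFun m j)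
    (h2 : ∀ v, 2 ≤ q v) (hqN : ∀ v, q v ^ N v ≤ B v) :
    DFun m (fun v => ac (q v) (N v) (fun z => T z (fun i => τ i v)) (i v) (j v)) := by
  have hpow : DFun m (fun v => q v ^ min (j v) (N v)) := dfun_powLe hq (hj.min hN) hB fun v =>
    (Nat.pow_le_pow_right (by have := h2 v; omega) (min_le_right _ _)).trans (hqN v)
  exact dfun_dg hq (DFun.app hT hpow hτ) hi h2

theorem fc_dfun {q i j : (Fin m → ℕ) → ℕ} {F C : Fin r → (Fin m → ℕ) → ℕ} (hq : DFun m q)
    (hF : ∀ s, DFun m (F s)) (hC : ∀ s, DFun m (C s)) (hi : DFun m i) (hj : DFun m j)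
    (h2 : ∀ v, 2 ≤ q v) :
    DFun m (fun v => fc (q v) r (fun s => F s v) (fun s => C s v) (i v) (j v)) := by
  unfold fc
  exact DFun.finSum Finset.univ fun s => (dfun_dg hq (hF s) hi h2).mul (dfun_dg hq (hC s) hj h2)

theorem valid_delta (hT : DFun (n + 1) (fun w => T (w 0) (fun i => w i.succ)))
    {τ : Fin n → (Fin m → ℕ) → ℕ} (hτ : ∀ i, DFun m (τ i)) {q N B : (Fin m → ℕ) → ℕ}
    {F C : Fin r → (Fin m → ℕ) → ℕ} (hq : DFun m q) (hN : DFun m N) (hB : DFun m B)
    (hF : ∀ s, DFun m (F s)) (hC : ∀ s, DFun m (C s)) (h2 : ∀ v, 2 ≤ q v)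
    (hqN : ∀ v, q v ^ N v ≤ B v) :
    Delta0 m (fun v => Valid (q v) (N v) r (fun z => T z (fun i => τ i v)) (fun s => F s v)
      (fun s => C s v)) := by
  have hI : DFun (m + 1 + 1) (fun w => w (Fin.succ 0)) := DFun.proj _
  have hJ : DFun (m + 1 + 1) (fun w => w 0) := DFun.proj 0
  have hpp : ∀ w : Fin (m + 1 + 1) → ℕ, 0 < q (fun i => w i.succ.succ) := fun w =>
    lt_of_lt_of_le (by norm_num) (h2 _)
  have hac := ac_dfun (m := m + 1 + 1) hT (τ := fun i w => τ i (fun k => w k.succ.succ))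
    (fun i => (hτ i).weak.weak) hq.weak.weak hN.weak.weak hB.weak.weak hI hJ (fun w => h2 _)
    (fun w => hqN _)
  have hfc := fc_dfun (m := m + 1 + 1) (F := fun s w => F s (fun k => w k.succ.succ))
    (C := fun s w => C s (fun k => w k.succ.succ)) hq.weak.weak (fun s => (hF s).weak.weak)
    (fun s => (hC s).weak.weak) hI hJ (fun w => h2 _)
  have hE := Delta0.eqFun (DFun.modPos hac hq.weak.weak hpp) (DFun.modPos hfc hq.weak.weak hpp)
  have hor := (Delta0.ltFun (hI.add (DFun.const r)) hJ).or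
    (Delta0.ltFun (hJ.add (DFun.const r)) hI)
  have hA := Dlt_ball (m := m + 1) (b := fun w => N (fun i => w i.succ)) hN.weak
    (P := fun j w => (w 0 + r < j ∨ j + r < w 0) →
      ac (q (fun i => w i.succ)) (N (fun i => w i.succ))
        (fun z => T z (fun i => τ i (fun k => w k.succ))) (w 0) j % q (fun i => w i.succ) =
      fc (q (fun i => w i.succ)) r (fun s => F s (fun k => w k.succ))
        (fun s => C s (fun k => w k.succ)) (w 0) j % q (fun i => w i.succ)) (hor.imp hE)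
  exact Dlt_ball hN (P := fun i v => ∀ j, j < N v → (i + r < j ∨ j + r < i) →
      ac (q v) (N v) (fun z => T z (fun i => τ i v)) i j % q v =
      fc (q v) r (fun s => F s v) (fun s => C s v) i j % q v) hA

/-- the equation of `Loc` at `l` -/
def Loc1 (q N e r x : ℕ) (T : ℕ → ℕ) (F C : Fin r → ℕ) (g : ℕ) (lam : Fin r → ℕ) (i : ℕ)
    (a : Fin (2 * r + 1 + r) → ℕ) (l : ℕ) : Prop :=
  ((∑ κ ∈ range (2 * r + 1), if r ≤ i + κ ∧ i + κ < N + r then
      (ac q N T i (i + κ - r) + (q - 1) * fc q r F C i (i + κ - r)) * dg q (ax a κ) l else 0) +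
    (∑ s : Fin r, dg q (F s) i * dg q (lam s) l) + dg q g l * dg q (ax a r) (e - 1) +
    (if l = 0 then dg q x i else 0)) % q = (if l = 0 then 0 else dg q (ax a r) (l - 1)) % q

theorem loc1_delta (hT : DFun (n + 1) (fun w => T (w 0) (fun i => w i.succ)))
    {τ : Fin n → (Fin m → ℕ) → ℕ} (hτ : ∀ i, DFun m (τ i))
    {q N e x g i l B : (Fin m → ℕ) → ℕ} {F C lam : Fin r → (Fin m → ℕ) → ℕ}
    {a : Fin (2 * r + 1 + r) → (Fin m → ℕ) → ℕ}
    (hq : DFun m q) (hN : DFun m N) (he : DFun m e)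
    (hx : DFun m x) (hg : DFun m g) (hi : DFun m i) (hl : DFun m l) (hB : DFun m B)
    (hF : ∀ s, DFun m (F s)) (hC : ∀ s, DFun m (C s)) (hlam : ∀ s, DFun m (lam s))
    (ha : ∀ κ, DFun m (a κ)) (h2 : ∀ v, 2 ≤ q v) (hqN : ∀ v, q v ^ N v ≤ B v) :
    Delta0 m (fun v => Loc1 (q v) (N v) (e v) r (x v) (fun z => T z (fun i => τ i v))
      (fun s => F s v) (fun s => C s v) (g v) (fun s => lam s v) (i v) (fun κ => a κ v) (l v)) := by
  have hpp : ∀ w : Fin m → ℕ, 0 < q w := fun w => lt_of_lt_of_le (by norm_num) (h2 _)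
  have hsum : DFun m (fun v => ∑ κ ∈ range (2 * r + 1), if r ≤ i v + κ ∧ i v + κ < N v + r then
      (ac (q v) (N v) (fun z => T z (fun i => τ i v)) (i v) (i v + κ - r) +
        (q v - 1) * fc (q v) r (fun s => F s v) (fun s => C s v) (i v) (i v + κ - r)) *
        dg (q v) (ax (fun κ => a κ v) κ) (l v) else 0) := by
    refine DFun.finSum _ fun κ => ?_
    have hik : DFun m (fun v => i v + κ) := hi.add (DFun.const κ)
    have hikr : DFun m (fun v => i v + κ - r) := hik.sub (DFun.const r)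
    refine DFun.ite ((Delta0.leFun (DFun.const r) hik).and (Delta0.ltFun hik
      (hN.add (DFun.const r)))) ?_ (DFun.const 0)
    exact ((ac_dfun hT hτ hq hN hB hi hikr h2 hqN).add ((hq.sub (DFun.const 1)).mul
      (fc_dfun hq hF hC hi hikr h2))).mul (dfun_dg hq (ax_dfun ha κ) hl h2)
  have hs2 : DFun m (fun v => ∑ s : Fin r, dg (q v) (F s v) (i v) * dg (q v) (lam s v) (l v)) :=
    DFun.finSum _ fun s => (dfun_dg hq (hF s) hi h2).mul (dfun_dg hq (hlam s) hl h2)
  have hg1 := (dfun_dg hq hg hl h2).mul (dfun_dg hq (ax_dfun ha r) (he.sub (DFun.const 1)) h2)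
  have hl0 : Delta0 m (fun v => l v = 0) := Delta0.eqFun hl (DFun.const 0)
  have hx0 := DFun.ite hl0 (dfun_dg hq hx hi h2) (DFun.const 0)
  have hr0 := DFun.ite hl0 (DFun.const 0) (dfun_dg hq (ax_dfun ha r) (hl.sub (DFun.const 1)) h2)
  exact Delta0.eqFun (DFun.modPos (((hsum.add hs2).add hg1).add hx0) hq hpp)
    (DFun.modPos hr0 hq hpp)

theorem loc_delta (hT : DFun (n + 1) (fun w => T (w 0) (fun i => w i.succ)))
    {τ : Fin n → (Fin m → ℕ) → ℕ} (hτ : ∀ i, DFun m (τ i))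
    {q N e x g i B : (Fin m → ℕ) → ℕ} {F C lam : Fin r → (Fin m → ℕ) → ℕ}
    {a : Fin (2 * r + 1 + r) → (Fin m → ℕ) → ℕ}
    (hq : DFun m q) (hN : DFun m N) (he : DFun m e)
    (hx : DFun m x) (hg : DFun m g) (hi : DFun m i) (hB : DFun m B)
    (hF : ∀ s, DFun m (F s)) (hC : ∀ s, DFun m (C s)) (hlam : ∀ s, DFun m (lam s))
    (ha : ∀ κ, DFun m (a κ)) (h2 : ∀ v, 2 ≤ q v) (hqN : ∀ v, q v ^ N v ≤ B v) :
    Delta0 m (fun v => Loc (q v) (N v) (e v) r (x v) (fun z => T z (fun i => τ i v))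
      (fun s => F s v) (fun s => C s v) (g v) (fun s => lam s v) (i v) (fun κ => a κ v)) :=
  Dlt_ball he (P := fun l v => Loc1 (q v) (N v) (e v) r (x v) (fun z => T z (fun i => τ i v))
      (fun s => F s v) (fun s => C s v) (g v) (fun s => lam s v) (i v) (fun κ => a κ v) l)
    (loc1_delta (m := m + 1) hT (τ := fun i w => τ i (fun k => w k.succ))
      (fun i => (hτ i).weak) (F := fun s w => F s (fun k => w k.succ))
      (C := fun s w => C s (fun k => w k.succ)) (lam := fun s w => lam s (fun k => w k.succ))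
      (a := fun κ w => a κ (fun k => w k.succ)) hq.weak hN.weak he.weak hx.weak hg.weak hi.weak
      (DFun.proj 0) hB.weak (fun s => (hF s).weak) (fun s => (hC s).weak)
      (fun s => (hlam s).weak) (fun κ => (ha κ).weak) (fun _ => h2 _) (fun _ => hqN _))

theorem ee_delta (hT : DFun (n + 1) (fun w => T (w 0) (fun i => w i.succ)))
    {τ : Fin n → (Fin m → ℕ) → ℕ} (hτ : ∀ i, DFun m (τ i))
    {q N e x j g U i B : (Fin m → ℕ) → ℕ} {F C lam : Fin r → (Fin m → ℕ) → ℕ}
    {a b : Fin (2 * r + 1 + r) → (Fin m → ℕ) → ℕ}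
    (hq : DFun m q) (hN : DFun m N) (he : DFun m e)
    (hx : DFun m x) (hj : DFun m j) (hg : DFun m g) (hU : DFun m U) (hi : DFun m i)
    (hB : DFun m B)
    (hF : ∀ s, DFun m (F s)) (hC : ∀ s, DFun m (C s)) (hlam : ∀ s, DFun m (lam s))
    (ha : ∀ κ, DFun m (a κ)) (hb : ∀ κ, DFun m (b κ)) (h2 : ∀ v, 2 ≤ q v)
    (hqN : ∀ v, q v ^ N v ≤ B v) :
    Delta0 m (fun v => EE (q v) (N v) (e v) r (x v) (fun z => T z (fun i => τ i v)) (j v)
      (fun s => F s v) (fun s => C s v) (g v) (U v) (fun s => lam s v) (i v) (fun κ => a κ v)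
      (fun κ => b κ v)) := by
  have hpp : ∀ w : Fin m → ℕ, 0 < q w := fun w => lt_of_lt_of_le (by norm_num) (h2 _)
  have c1 : Delta0 m (fun v => ∀ κ, κ < 2 * r →
      ax (fun κ => b κ v) κ = ax (fun κ => a κ v) (κ + 1)) := by
    refine (Delta0.finAll (range (2 * r)) (P := fun κ v =>
      ax (fun κ => b κ v) κ = ax (fun κ => a κ v) (κ + 1)) fun κ =>
        Delta0.eqFun (ax_dfun hb κ) (ax_dfun ha (κ + 1))).of_iff fun v => ?_
    simp only [Finset.mem_range]
  have c2 := loc_delta hT hτ hq hN he hx hg hi hB hF hC hlam ha h2 hqN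
  have c3 := (Delta0.eqFun hi hj).imp (Delta0.eqFun (ax_dfun ha r) hU)
  have c4 := (Delta0.eqFun hi (DFun.const 0)).imp (Delta0.allOf (α := Fin r)
    (P := fun s v => ax (fun κ => a κ v) (2 * r + 1 + s) = 0) fun s =>
      Delta0.eqFun (ax_dfun ha _) (DFun.const 0))
  have c5 : Delta0 m (fun v => ∀ s : Fin r, ∀ l, l < e v →
      dg (q v) (ax (fun κ => b κ v) (2 * r + 1 + s)) l % q v =
        (dg (q v) (ax (fun κ => a κ v) (2 * r + 1 + s)) l + dg (q v) (C s v) (i v) *
          dg (q v) (ax (fun κ => a κ v) r) l) % q v) := by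
    refine Delta0.allOf fun s => ?_
    refine Dlt_ball he (P := fun l v => dg (q v) (ax (fun κ => b κ v) (2 * r + 1 + s)) l % q v =
        (dg (q v) (ax (fun κ => a κ v) (2 * r + 1 + s)) l + dg (q v) (C s v) (i v) *
          dg (q v) (ax (fun κ => a κ v) r) l) % q v) ?_
    have hl : DFun (m + 1) (fun w => w 0) := DFun.proj 0
    have hb1 := (ax_dfun hb (2 * r + 1 + s)).weak
    have ha1 := (ax_dfun ha (2 * r + 1 + s)).weak
    have ha2 := (ax_dfun ha r).weak
    have h2' : ∀ w : Fin (m + 1) → ℕ, 2 ≤ q (fun i => w i.succ) := fun w => h2 _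
    exact Delta0.eqFun (DFun.modPos (dfun_dg hq.weak hb1 hl h2') hq.weak fun w => hpp _)
      (DFun.modPos ((dfun_dg hq.weak ha1 hl h2').add
        ((dfun_dg hq.weak (hC s).weak hi.weak h2').mul (dfun_dg hq.weak ha2 hl h2')))
        hq.weak fun w => hpp _)
  have c6 := (Delta0.eqFun (hi.add (DFun.const 1)) hN).imp (Delta0.allOf (α := Fin r)
    (P := fun s v => ax (fun κ => b κ v) (2 * r + 1 + s) = lam s v) fun s =>
      Delta0.eqFun (ax_dfun hb _) (hlam s))
  exact c1.and (c2.and (c3.and (c4.and (c5.and c6))))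

theorem rr_delta (hT : DFun (n + 1) (fun w => T (w 0) (fun i => w i.succ)))
    {τ : Fin n → (Fin m → ℕ) → ℕ} (hτ : ∀ i, DFun m (τ i)) {q N e x j g U B K : (Fin m → ℕ) → ℕ}
    {F C : Fin r → (Fin m → ℕ) → ℕ} (hq : DFun m q) (hN : DFun m N) (he : DFun m e)
    (hx : DFun m x) (hj : DFun m j) (hg : DFun m g) (hU : DFun m U) (hB : DFun m B)
    (hK : DFun m K) (hF : ∀ s, DFun m (F s)) (hC : ∀ s, DFun m (C s)) (h2 : ∀ v, 2 ≤ q v)
    (he1 : ∀ v, 1 ≤ e v) (hqN : ∀ v, q v ^ N v ≤ B v) (hqe : ∀ v, q v ^ e v ≤ B v)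
    (hQK : ∀ v, (q v ^ e v) ^ (K v + 1) ≤ B v) (hNK : ∀ v, N v ≤ K v * K v) :
    Delta0 m (fun v => RR (q v) (N v) (e v) r (x v) (fun z => T z (fun i => τ i v)) (j v)
      (fun s => F s v) (fun s => C s v) (g v) (U v)) := by
  have hQ : DFun m (fun v => q v ^ e v) := dfun_powLe hq he hB hqe
  have h := Delta0.bexVec (D := r) hQ (P := fun lam v => (∀ s, lam s < q v ^ e v) ∧
    ∃ st : ℕ → Fin (2 * r + 1 + r) → ℕ, (∀ i κ, st i κ < q v ^ e v) ∧
      ∀ i, i < N v → EE (q v) (N v) (e v) r (x v) (fun z => T z (fun i => τ i v)) (j v)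
        (fun s => F s v) (fun s => C s v) (g v) (U v) lam i (st i) (st (i + 1))) (by
    intro m' lam v hlam hv
    have hq' := hq.comp hv
    have hN' := hN.comp hv
    have he' := he.comp hv
    have hx' := hx.comp hv
    have hj' := hj.comp hv
    have hg' := hg.comp hv
    have hU' := hU.comp hv
    have hB' := hB.comp hv
    have hK' := hK.comp hv
    have hQ' := hQ.comp hv
    refine (Delta0.allOf (α := Fin r) (P := fun s w => lam s w < q (fun i => v i w) ^
      e (fun i => v i w)) fun s => Delta0.ltFun (hlam s) hQ').and ?_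
    refine path_delta (n := m') hQ' hK' hN' hB' (fun w => Dlt_two (h2 _) (he1 _))
      (fun w => hQK _) (fun w => hNK _)
      (E := fun i a b w => EE (q fun i => v i w) (N fun i => v i w) (e fun i => v i w) r
        (x fun i => v i w) (fun z => T z (fun i => τ i fun k => v k w)) (j fun i => v i w)
        (fun s => F s fun i => v i w) (fun s => C s fun i => v i w) (g fun i => v i w)
        (U fun i => v i w) (fun s => lam s w) i a b) ?_
    intro m'' i a b v' hi ha hb hv'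
    exact ee_delta (m := m'') hT (τ := fun i w => τ i fun k => v k fun l => v' l w)
      (fun i => ((hτ i).comp hv).comp hv') (F := fun s w => F s fun k => v k fun l => v' l w)
      (C := fun s w => C s fun k => v k fun l => v' l w)
      (lam := fun s w => lam s fun l => v' l w) (hq'.comp hv') (hN'.comp hv') (he'.comp hv')
      (hx'.comp hv') (hj'.comp hv') (hg'.comp hv') (hU'.comp hv') hi (hB'.comp hv')
      (fun s => ((hF s).comp hv).comp hv') (fun s => ((hC s).comp hv).comp hv')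
      (fun s => (hlam s).comp hv') ha hb (fun _ => h2 _) (fun _ => hqN _))
  refine h.of_iff fun v => ?_
  constructor
  · rintro ⟨lam, h1, h3⟩
    exact ⟨lam, fun s => (h1 s).le, h1, h3⟩
  · rintro ⟨lam, _, h1, h3⟩
    exact ⟨lam, h1, h3⟩

theorem divU_delta {q N e g U ν P h B : (Fin m → ℕ) → ℕ} (hq : DFun m q) (hN : DFun m N)
    (he : DFun m e) (hg : DFun m g) (hU : DFun m U) (hν : DFun m ν) (hP : DFun m P)
    (hh : DFun m h) (hB : DFun m B) (h2 : ∀ v, 2 ≤ q v) (hqN : ∀ v, q v ^ N v ≤ B v)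
    (hqe : ∀ v, q v ^ e v ≤ B v) :
    Delta0 m (fun v => DivU (q v) (N v) (e v) (g v) (U v) (ν v) (P v) (h v)) := by
  have hqNd : DFun m (fun v => q v ^ N v) := dfun_powLe hq hN hB hqN
  have hqed : DFun m (fun v => q v ^ e v) := dfun_powLe hq he hB hqe
  have hS : DFun (m + 1) (fun w => min (w 0 + 1) (N (fun i => w i.succ) + e (fun i => w i.succ))) :=
    ((DFun.proj 0).add (DFun.const 1)).min (hN.weak.add he.weak)
  have hSb : ∀ w : Fin (m + 1) → ℕ, min (w 0 + 1) (N (fun i => w i.succ) + e (fun i => w i.succ)) ≤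
      (lg (B (fun i => w i.succ)) + 1) ^ 2 := fun w => by
    have a1 : N (fun i => w i.succ) ≤ lg (B (fun i => w i.succ)) := le_lg_of_pow_le (h2 _) (hqN _)
    have a2 : e (fun i => w i.succ) ≤ lg (B (fun i => w i.succ)) := le_lg_of_pow_le (h2 _) (hqe _)
    refine (min_le_right _ _).trans ?_
    nlinarith
  -- the variables `(a, k, v)`
  have ha : DFun (m + 1 + 1) (fun w => w 0) := DFun.proj 0
  have hk : DFun (m + 1 + 1) (fun w => w (Fin.succ 0)) := DFun.proj _
  have hka := hk.sub ha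
  have hν2 := dfun_dg hq.weak.weak (hν.weak.weak.add hqNd.weak.weak) ha fun w => h2 _
  have hU2 := dfun_dg hq.weak.weak hU.weak.weak hka fun w => h2 _
  have hg2 := dfun_dg hq.weak.weak (hg.weak.weak.add hqed.weak.weak) ha fun w => h2 _
  have hh2 := dfun_dg hq.weak.weak hh.weak.weak hka fun w => h2 _
  have hs1 := dfun_sumPoly 2 (n := m + 1)
    (g := fun a w => dg (q (fun i => w i.succ)) (ν (fun i => w i.succ) +
      q (fun i => w i.succ) ^ N (fun i => w i.succ)) a *
      dg (q (fun i => w i.succ)) (U (fun i => w i.succ)) (w 0 - a)) (hν2.mul hU2) hS hB.weak hSb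
  have hs2 := dfun_sumPoly 2 (n := m + 1)
    (g := fun a w => dg (q (fun i => w i.succ)) (g (fun i => w i.succ) +
      q (fun i => w i.succ) ^ e (fun i => w i.succ)) a *
      dg (q (fun i => w i.succ)) (h (fun i => w i.succ)) (w 0 - a)) (hg2.mul hh2) hS hB.weak hSb
  have hpp : ∀ w : Fin (m + 1) → ℕ, 0 < q (fun i => w i.succ) := fun w =>
    lt_of_lt_of_le (by norm_num) (h2 _)
  have hPk := dfun_dg hq.weak hP.weak (DFun.proj (n := m + 1) 0) fun w => h2 _
  have hE := Delta0.eqFun (DFun.modPos hs1 hq.weak hpp) (DFun.modPos (hPk.add hs2) hq.weak hpp)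
  have hC := Dlt_ball (m := m) (b := fun v => N v + e v) (hN.add he)
    (P := fun k v =>
      (∑ a ∈ range (min (k + 1) (N v + e v)), dg (q v) (ν v + q v ^ N v) a *
        dg (q v) (U v) (k - a)) % q v =
      (dg (q v) (P v) k + ∑ a ∈ range (min (k + 1) (N v + e v)), dg (q v) (g v + q v ^ e v) a *
        dg (q v) (h v) (k - a)) % q v) hE
  refine hC.of_iff fun v => ?_
  constructor
  · intro h k hk
    rw [min_eq_left (by omega)]
    exact h k hk
  · intro h k hk
    have := h k hk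
    rw [min_eq_left (by omega)] at this
    exact this

theorem goodB_delta (hT : DFun (n + 1) (fun w => T (w 0) (fun i => w i.succ)))
    {τ : Fin n → (Fin m → ℕ) → ℕ} (hτ : ∀ i, DFun m (τ i)) {q N e x j ν P B K : (Fin m → ℕ) → ℕ}
    {F C : Fin r → (Fin m → ℕ) → ℕ} (hq : DFun m q) (hN : DFun m N) (he : DFun m e)
    (hx : DFun m x) (hj : DFun m j) (hν : DFun m ν) (hP : DFun m P) (hB : DFun m B)
    (hK : DFun m K) (hF : ∀ s, DFun m (F s)) (hC : ∀ s, DFun m (C s)) (h2 : ∀ v, 2 ≤ q v)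
    (he1 : ∀ v, 1 ≤ e v) (hqN : ∀ v, q v ^ N v ≤ B v) (hqe : ∀ v, q v ^ e v ≤ B v)
    (hQK : ∀ v, (q v ^ e v) ^ (K v + 1) ≤ B v) (hNK : ∀ v, N v ≤ K v * K v) :
    Delta0 m (fun v => GoodB (q v) (N v) (e v) r (x v) (fun z => T z (fun i => τ i v)) (j v)
      (fun s => F s v) (fun s => C s v) (ν v) (P v)) := by
  have hqNd : DFun m (fun v => q v ^ N v) := dfun_powLe hq hN hB hqN
  have hqed : DFun m (fun v => q v ^ e v) := dfun_powLe hq he hB hqe
  -- the variables `(h, U, g, v)`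
  have hD := divU_delta (m := m + 1 + 1 + 1) hq.weak.weak.weak hN.weak.weak.weak
    he.weak.weak.weak (g := fun w => w (Fin.succ (Fin.succ 0))) (DFun.proj _)
    (U := fun w => w (Fin.succ 0)) (DFun.proj _) hν.weak.weak.weak hP.weak.weak.weak
    (h := fun w => w 0) (DFun.proj _) hB.weak.weak.weak (fun w => h2 _) (fun w => hqN _)
    fun w => hqe _
  have hE := Dlt_bex (m := m + 1 + 1)
    (b := fun w => q (fun i => w i.succ.succ) ^ N (fun i => w i.succ.succ)) hqNd.weak.weak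
    (P := fun h w => DivU (q (fun i => w i.succ.succ)) (N (fun i => w i.succ.succ))
      (e (fun i => w i.succ.succ)) (w (Fin.succ 0)) (w 0) (ν (fun i => w i.succ.succ))
      (P (fun i => w i.succ.succ)) h) hD
  have hR := rr_delta (m := m + 1 + 1) hT (τ := fun i w => τ i (fun k => w k.succ.succ))
    (fun i => (hτ i).weak.weak) (F := fun s w => F s (fun k => w k.succ.succ))
    (C := fun s w => C s (fun k => w k.succ.succ)) hq.weak.weak hN.weak.weak he.weak.weak
    hx.weak.weak hj.weak.weak (g := fun w => w (Fin.succ 0)) (DFun.proj _) (U := fun w => w 0)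
    (DFun.proj _) hB.weak.weak hK.weak.weak (fun s => (hF s).weak.weak)
    (fun s => (hC s).weak.weak) (fun w => h2 _) (fun w => he1 _) (fun w => hqN _)
    (fun w => hqe _) (fun w => hQK _) (fun w => hNK _)
  have hF' := Dlt_ball (m := m + 1) (b := fun w => q (fun i => w i.succ) ^ e (fun i => w i.succ))
    hqed.weak
    (P := fun U w => RR (q (fun i => w i.succ)) (N (fun i => w i.succ)) (e (fun i => w i.succ)) r
      (x (fun i => w i.succ)) (fun z => T z (fun i => τ i (fun k => w k.succ)))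
      (j (fun i => w i.succ)) (fun s => F s (fun i => w i.succ)) (fun s => C s (fun i => w i.succ))
      (w 0) U → ∃ h, h < q (fun i => w i.succ) ^ N (fun i => w i.succ) ∧
        DivU (q (fun i => w i.succ)) (N (fun i => w i.succ)) (e (fun i => w i.succ)) (w 0) U
          (ν (fun i => w i.succ)) (P (fun i => w i.succ)) h) (hR.imp hE)
  exact Dlt_ball (m := m) (b := fun v => q v ^ e v) hqed
    (P := fun g v => ∀ U, U < q v ^ e v → RR (q v) (N v) (e v) r (x v)
      (fun z => T z (fun i => τ i v)) (j v) (fun s => F s v) (fun s => C s v) g U →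
      ∃ h, h < q v ^ N v ∧ DivU (q v) (N v) (e v) g U (ν v) (P v) h) hF'

end Pool.Agent.H63LB
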