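import Pool.Agent.H63LB.GB
import Pool.Agent.H63LB.Dlt
import Pool.Agent.H63LB.Bnd

/-!
# Iterates of band plus small rank, prime power modulus, linear maps (core)
-/

set_option autoImplicit false

namespace Pool.Agent.H63LB

open Finset Polynomial Pool.Agent.Grz Pool.Agent.GAvg Pool.Agent.PTr Pool.Agent.MTr
open Pool.Agent.LPC Pool.Agent.ECD Pool.Agent.LinU

namespace Cor

theorem ballLt {n : ℕ} {b : (Fin n → ℕ) → ℕ} (hb : DFun n b) {P : ℕ → (Fin n → ℕ) → Prop}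
    (hP : Delta0 (n + 1) (fun w => P (w 0) (fun i => w i.succ))) :
    Delta0 n (fun v => ∀ x, x < b v → P x v) := by
  have h1 := Delta0.ballFun (n := n) (P := fun x v => x < b v → P x v) hb
    ((Delta0.ltFun (DFun.proj 0) hb.weak).imp hP)
  refine h1.of_iff fun v => ⟨fun h x _ hx => h x hx, fun h x hx => h x hx.le hx⟩

theorem bexLt {n : ℕ} {b : (Fin n → ℕ) → ℕ} (hb : DFun n b) {P : ℕ → (Fin n → ℕ) → Prop}
    (hP : Delta0 (n + 1) (fun w => P (w 0) (fun i => w i.succ))) :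
    Delta0 n (fun v => ∃ x, x < b v ∧ P x v) := by
  have h1 := Delta0.bexFun (n := n) (P := fun x v => x < b v ∧ P x v) hb
    ((Delta0.ltFun (DFun.proj 0) hb.weak).and hP)
  refine h1.of_iff fun v => ⟨fun ⟨x, hx, h⟩ => ⟨x, hx.le, hx, h⟩, fun ⟨x, _, hx, h⟩ => ⟨x, hx, h⟩⟩

theorem minFac_def {n : ℕ} {q : (Fin n → ℕ) → ℕ} (hq : DFun n q) (h2 : ∀ v, 2 ≤ q v) :
    DFun n (fun v => (q v).minFac) := by
  refine DFun.ofGraph hq (fun v => Nat.minFac_le (by have := h2 v; omega)) ?_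
  have h0 : DFun (n + 1) (fun w : Fin (n + 1) → ℕ => w 0) := DFun.proj 0
  have h3 : Delta0 (n + 1) (fun w => ∀ z, z < w 0 → (2 ≤ z → ¬ q (fun i => w i.succ) % z = 0)) := by
    refine ballLt (b := fun w => w 0) (P := fun z w => 2 ≤ z → ¬ q (fun i => w i.succ) % z = 0)
      h0 ?_
    exact (Delta0.leFun (DFun.const 2) (DFun.proj 0)).imp
      (Delta0.eqFun (DFun.modAny hq.weak.weak (DFun.proj 0)) (DFun.const 0)).not
  have h1 := ((Delta0.leFun (DFun.const 2) h0).and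
    (Delta0.eqFun (DFun.modAny hq.weak h0) (DFun.const 0))).and h3
  refine h1.of_iff fun w => ?_
  have hq1 : q (fun i => w i.succ) ≠ 1 := by have := h2 (fun i => w i.succ); omega
  constructor
  · intro h
    rw [h]
    refine ⟨⟨(Nat.minFac_prime hq1).two_le, Nat.mod_eq_zero_of_dvd (Nat.minFac_dvd _)⟩, ?_⟩
    intro z hz hz2 hz0
    have h4 := Nat.minFac_le_of_dvd hz2 (Nat.dvd_of_mod_eq_zero hz0)
    omega
  · rintro ⟨⟨h4, h5⟩, h6⟩
    have h7 := Nat.minFac_le_of_dvd h4 (Nat.dvd_of_mod_eq_zero h5)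
    by_contra h8
    exact h6 _ (lt_of_le_of_ne h7 (Ne.symm h8)) (Nat.minFac_prime hq1).two_le
      (Nat.mod_eq_zero_of_dvd (Nat.minFac_dvd _))

/-- the degree `e` -/
def ee (p N : ℕ) : ℕ := max 1 (Nat.clog p (3 * N))

theorem ee_def {n : ℕ} {p N : (Fin n → ℕ) → ℕ} (hp : DFun n p) (hN : DFun n N)
    (h2 : ∀ v, 2 ≤ p v) : DFun n (fun v => ee (p v) (N v)) := by
  have hb : ∀ v, ee (p v) (N v) ≤ 3 * N v + 1 := by
    intro v
    have h1 : Nat.clog (p v) (3 * N v) ≤ 3 * N v := by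
      rw [Nat.clog_le_iff_le_pow (by have := h2 v; omega)]
      exact (Nat.lt_pow_self (by have := h2 v; omega)).le
    unfold ee
    omega
  refine DFun.ofGraph (((DFun.const 3).mul hN).add (DFun.const 1)) hb ?_
  have h0 : DFun (n + 1) (fun w : Fin (n + 1) → ℕ => w 0) := DFun.proj 0
  have hlt : ∀ {i : (Fin (n + 1) → ℕ) → ℕ}, DFun (n + 1) i → Delta0 (n + 1)
      (fun w => p (fun i => w i.succ) ^ i w ≤ 3 * N (fun i => w i.succ) - 1) := fun hi =>
    delta_powLe hp.weak hi (((DFun.const 3).mul hN.weak).sub (DFun.const 1)) fun w => h2 _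
  have h1 := ((Delta0.leFun (DFun.const 1) h0).and (hlt h0).not).and
    ((Delta0.eqFun h0 (DFun.const 1)).or (hlt (h0.sub (DFun.const 1))))
  refine h1.of_iff fun w => ?_
  have hp2 := h2 (fun i => w i.succ)
  have hA : ∀ i, (p (fun i => w i.succ) ^ i ≤ 3 * N (fun i => w i.succ) - 1) ↔
      i < Nat.clog (p (fun i => w i.succ)) (3 * N (fun i => w i.succ)) := by
    intro i
    rw [← not_le, Nat.clog_le_iff_le_pow (by omega)]
    have : 1 ≤ p (fun i => w i.succ) ^ i := Nat.one_le_pow _ _ (by omega)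
    omega
  rw [hA, hA]
  unfold ee
  omega


theorem sqrt_def {n : ℕ} {N : (Fin n → ℕ) → ℕ} (hN : DFun n N) :
    DFun n (fun v => Nat.sqrt (N v)) := by
  refine DFun.ofGraph hN (fun v => Nat.sqrt_le_self _) ?_
  have h0 : DFun (n + 1) (fun w : Fin (n + 1) → ℕ => w 0) := DFun.proj 0
  have h1 := (Delta0.leFun (h0.mul h0) hN.weak).and
    (Delta0.ltFun hN.weak ((h0.add (DFun.const 1)).mul (h0.add (DFun.const 1))))
  refine h1.of_iff fun w => ?_
  constructor
  · intro h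
    rw [h]
    exact ⟨Nat.sqrt_le _, Nat.lt_succ_sqrt _⟩
  · rintro ⟨h2, h3⟩
    exact Nat.eq_sqrt.2 ⟨h2, h3⟩

end Cor

/-- `y` is the digit `j` of `T^t x`, for the codes `F`, `C` -/
def DigB (q N e r x : ℕ) (T : ℕ → ℕ) (j t : ℕ) (F C : Fin r → ℕ) (y : ℕ) : Prop :=
  Valid q N r T F C ∧ ∃ ν, ν < q ^ N ∧ ∃ P, P < q ^ N ∧ (GoodB q N e r x T j F C ν P ∧
    y = dg q (cde N ((X ^ t * pol (ZMod q) q N P) %ₘ mu (ZMod q) q N ν)) (N - 1))

lemma ac_eq {q N i j : ℕ} {T : ℕ → ℕ} (hq : 2 ≤ q) {A : Matrix (Fin N) (Fin N) (ZMod q)}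
    (hA : ∀ z, z < q ^ N → vecOf q N (T z) = A.mulVec (vecOf q N z)) (hi : i < N) (hj : j < N) :
    ((ac q N T i j : ℕ) : ZMod q) = A ⟨i, hi⟩ ⟨j, hj⟩ := by
  unfold ac
  rw [min_eq_left hj.le]
  have h1 := congrFun (hA (q ^ j) (Nat.pow_lt_pow_right (by omega) hj)) ⟨i, hi⟩
  have h2 : vecOf q N (q ^ j) = Pi.single ⟨j, hj⟩ 1 := by
    funext l
    have h3 := A7.dg_top (c := 0) hq (pow_pos (by omega : 0 < q) j) l
    rw [zero_add, A7.dg_zero] at h3
    show ((dg q (q ^ j) l : ℕ) : ZMod q) = _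
    rw [h3, Pi.single_apply]
    by_cases h4 : (l : ℕ) = j
    · rw [if_neg (by omega), if_pos h4, if_pos (Fin.ext h4)]
      simp
    · rw [if_neg (show ¬ l = ⟨j, hj⟩ from fun h => h4 (by rw [h]))]
      split_ifs <;> simp
  rw [h2] at h1
  have h5 : ((dg q (T (q ^ j)) i : ℕ) : ZMod q) = (A.mulVec (Pi.single ⟨j, hj⟩ 1)) ⟨i, hi⟩ := h1
  rw [h5]
  simp [Matrix.mulVec, dotProduct, Pi.single_apply]

lemma valid_of_bandRank {q N r : ℕ} {T : ℕ → ℕ} (hq : 2 ≤ q)
    {A : Matrix (Fin N) (Fin N) (ZMod q)}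
    (hA : ∀ z, z < q ^ N → vecOf q N (T z) = A.mulVec (vecOf q N z)) (hb : BandRank r A) :
    ∃ F C : Fin r → ℕ, (∀ s, F s < q ^ N) ∧ (∀ s, C s < q ^ N) ∧ Valid q N r T F C := by
  obtain ⟨J, F, C, hJ, hAJ⟩ := hb
  choose Fc hF1 hF2 using fun s : Fin r => A7.exists_code hq N (fun i => F i s)
  choose Cc hC1 hC2 using fun s : Fin r => A7.exists_code hq N (fun j => C s j)
  refine ⟨Fc, Cc, hF1, hC1, ?_⟩
  intro i hi j hj hij
  rw [← ZMod.natCast_eq_natCast_iff', ac_eq hq hA hi hj, hAJ, Matrix.add_apply,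
    hJ ⟨i, hi⟩ ⟨j, hj⟩ hij, zero_add, Matrix.mul_apply]
  unfold fc
  push_cast
  refine Finset.sum_congr rfl fun s _ => ?_
  have h1 : ((dg q (Fc s) i : ℕ) : ZMod q) = F ⟨i, hi⟩ s := congrFun (hF2 s) ⟨i, hi⟩
  have h2 : ((dg q (Cc s) j : ℕ) : ZMod q) = C s ⟨j, hj⟩ := congrFun (hC2 s) ⟨j, hj⟩
  rw [h1, h2]

theorem digB_iff {p k q N e r x j t y : ℕ} {T : ℕ → ℕ} (hp : p.Prime) (hk : 0 < k)
    (hqp : q = p ^ k) (he : 1 ≤ e) (hc : 3 * N ≤ p ^ e)
    {A : Matrix (Fin N) (Fin N) (ZMod q)} (hb : BandRank r A)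
    (hTb : ∀ z, z < q ^ N → T z < q ^ N)
    (hA : ∀ z, z < q ^ N → vecOf q N (T z) = A.mulVec (vecOf q N z)) (hx : x < q ^ N)
    (hj : j < N) :
    (∃ F : Fin r → ℕ, (∀ s, F s < q ^ N) ∧ ∃ C : Fin r → ℕ, (∀ s, C s < q ^ N) ∧
      DigB q N e r x T j t F C y) ↔ y = dg q (T^[t] x) j := by
  have hq : 2 ≤ q := by
    rw [hqp]
    exact hp.two_le.trans (Nat.le_self_pow hk.ne' p)
  constructor
  · rintro ⟨F, _, C, _, hV, ν, hν, P, hP, hG, hy⟩
    rw [hy]
    exact (goodB_digit hp hk hqp he hc hTb hA hV hx hj hν hP hG t).symm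
  · intro hy
    obtain ⟨F, C, hF, hC, hV⟩ := valid_of_bandRank hq hA hb
    obtain ⟨ν, P, hν, hP, hG⟩ := goodB_exists (x := x) hq he hj hA hV
    refine ⟨F, hF, C, hC, hV, ν, hν, P, hP, hG, ?_⟩
    rw [hy]
    exact goodB_digit hp hk hqp he hc hTb hA hV hx hj hν hP hG t

section

variable {n m r : ℕ} {T : ℕ → (Fin n → ℕ) → ℕ}

theorem digB_delta (hT : DFun (n + 1) (fun w => T (w 0) (fun i => w i.succ)))
    {τ : Fin n → (Fin m → ℕ) → ℕ} (hτ : ∀ i, DFun m (τ i))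
    {q N e x j t y B K : (Fin m → ℕ) → ℕ} {F C : Fin r → (Fin m → ℕ) → ℕ} (hq : DFun m q)
    (hN : DFun m N) (he : DFun m e) (hx : DFun m x) (hj : DFun m j) (ht : DFun m t)
    (hy : DFun m y) (hB : DFun m B) (hK : DFun m K) (hF : ∀ s, DFun m (F s))
    (hC : ∀ s, DFun m (C s)) (h2 : ∀ v, 2 ≤ q v) (he1 : ∀ v, 1 ≤ e v)
    (hqN : ∀ v, q v ^ N v ≤ B v) (hqe : ∀ v, q v ^ e v ≤ B v)
    (hQK : ∀ v, (q v ^ e v) ^ (K v + 1) ≤ B v) (hNK : ∀ v, N v ≤ K v * K v) :
    Delta0 m (fun v => DigB (q v) (N v) (e v) r (x v) (fun z => T z (fun i => τ i v)) (j v) (t v)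
      (fun s => F s v) (fun s => C s v) (y v)) := by
  have hQ : DFun m (fun v => q v ^ N v) := dfun_powLe hq hN hB hqN
  refine Delta0.and (valid_delta hT hτ hq hN hB hF hC h2 hqN) ?_
  refine Cor.bexLt (P := fun ν v => ∃ P, P < q v ^ N v ∧
      (GoodB (q v) (N v) (e v) r (x v) (fun z => T z (fun i => τ i v)) (j v)
        (fun s => F s v) (fun s => C s v) ν P ∧
      y v = dg (q v) (cde (N v) ((X ^ t v * pol (ZMod (q v)) (q v) (N v) P) %ₘ
        mu (ZMod (q v)) (q v) (N v) ν)) (N v - 1))) hQ ?_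
  refine Cor.bexLt (n := m + 1) (b := fun w => q (fun i => w i.succ) ^ N (fun i => w i.succ))
    (P := fun P w => GoodB (q (fun i => w i.succ)) (N (fun i => w i.succ))
      (e (fun i => w i.succ)) r (x (fun i => w i.succ))
      (fun z => T z (fun i => τ i (fun i => w i.succ))) (j (fun i => w i.succ))
      (fun s => F s (fun i => w i.succ)) (fun s => C s (fun i => w i.succ)) (w 0) P ∧
      y (fun i => w i.succ) = dg (q (fun i => w i.succ)) (cde (N (fun i => w i.succ))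
      ((X ^ t (fun i => w i.succ) * pol (ZMod (q (fun i => w i.succ))) (q (fun i => w i.succ))
        (N (fun i => w i.succ)) P) %ₘ mu (ZMod (q (fun i => w i.succ))) (q (fun i => w i.succ))
        (N (fun i => w i.succ)) (w 0))) (N (fun i => w i.succ) - 1)) hQ.weak ?_
  refine Delta0.and ?_ ?_
  · exact goodB_delta hT (τ := fun i w => τ i (fun i => w i.succ.succ))
      (fun i => (hτ i).weak.weak) hq.weak.weak hN.weak.weak he.weak.weak hx.weak.weak
      hj.weak.weak (DFun.proj (Fin.succ 0)) (DFun.proj 0) hB.weak.weak hK.weak.weak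
      (fun s => (hF s).weak.weak) (fun s => (hC s).weak.weak) (fun w => h2 _) (fun w => he1 _)
      (fun w => hqN _) (fun w => hqe _) (fun w => hQK _) (fun w => hNK _)
  · refine Delta0.eqFun hy.weak.weak (dfun_dg hq.weak.weak ?_
      (hN.weak.weak.sub (DFun.const 1)) fun w => h2 _)
    exact powX_mul_def hq.weak.weak hN.weak.weak (DFun.proj (Fin.succ 0)) hB.weak.weak
      (DFun.proj 0) ht.weak.weak (fun w => h2 _) (fun w => hqN _)

theorem exC_delta (hT : DFun (n + 1) (fun w => T (w 0) (fun i => w i.succ)))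
    {τ : Fin n → (Fin m → ℕ) → ℕ} (hτ : ∀ i, DFun m (τ i))
    {q N e x j t y B K : (Fin m → ℕ) → ℕ} {F : Fin r → (Fin m → ℕ) → ℕ} (hq : DFun m q)
    (hN : DFun m N) (he : DFun m e) (hx : DFun m x) (hj : DFun m j) (ht : DFun m t)
    (hy : DFun m y) (hB : DFun m B) (hK : DFun m K) (hF : ∀ s, DFun m (F s))
    (h2 : ∀ v, 2 ≤ q v) (he1 : ∀ v, 1 ≤ e v)
    (hqN : ∀ v, q v ^ N v ≤ B v) (hqe : ∀ v, q v ^ e v ≤ B v)
    (hQK : ∀ v, (q v ^ e v) ^ (K v + 1) ≤ B v) (hNK : ∀ v, N v ≤ K v * K v) :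
    Delta0 m (fun v => ∃ C : Fin r → ℕ, (∀ s, C s < q v ^ N v) ∧
      DigB (q v) (N v) (e v) r (x v) (fun z => T z (fun i => τ i v)) (j v) (t v)
      (fun s => F s v) C (y v)) := by
  have hQ : DFun m (fun v => q v ^ N v) := dfun_powLe hq hN hB hqN
  have h := Delta0.bexVec (D := r) (b := fun v => q v ^ N v) hQ
    (P := fun C v => (∀ s, C s < q v ^ N v) ∧
      DigB (q v) (N v) (e v) r (x v) (fun z => T z (fun i => τ i v)) (j v) (t v)
      (fun s => F s v) C (y v)) (fun m' X V hX hV =>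
      (Delta0.allOf fun s => Delta0.ltFun (hX s) (hQ.comp hV)).and
        (digB_delta hT (τ := fun i w => τ i (fun j => V j w)) (fun i => (hτ i).comp hV)
          (hq.comp hV) (hN.comp hV) (he.comp hV) (hx.comp hV) (hj.comp hV) (ht.comp hV)
          (hy.comp hV) (hB.comp hV) (hK.comp hV) (fun s => (hF s).comp hV) hX (fun w => h2 _)
          (fun w => he1 _) (fun w => hqN _) (fun w => hqe _) (fun w => hQK _) (fun w => hNK _)))
  refine h.of_iff fun v => ⟨?_, ?_⟩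
  · rintro ⟨C, hC, h3⟩
    exact ⟨C, fun s => (hC s).le, hC, h3⟩
  · rintro ⟨C, _, hC, h3⟩
    exact ⟨C, hC, h3⟩

theorem exF_delta (hT : DFun (n + 1) (fun w => T (w 0) (fun i => w i.succ)))
    {τ : Fin n → (Fin m → ℕ) → ℕ} (hτ : ∀ i, DFun m (τ i))
    {q N e x j t y B K : (Fin m → ℕ) → ℕ} (hq : DFun m q)
    (hN : DFun m N) (he : DFun m e) (hx : DFun m x) (hj : DFun m j) (ht : DFun m t)
    (hy : DFun m y) (hB : DFun m B) (hK : DFun m K)
    (h2 : ∀ v, 2 ≤ q v) (he1 : ∀ v, 1 ≤ e v)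
    (hqN : ∀ v, q v ^ N v ≤ B v) (hqe : ∀ v, q v ^ e v ≤ B v)
    (hQK : ∀ v, (q v ^ e v) ^ (K v + 1) ≤ B v) (hNK : ∀ v, N v ≤ K v * K v) :
    Delta0 m (fun v => ∃ F : Fin r → ℕ, (∀ s, F s < q v ^ N v) ∧ ∃ C : Fin r → ℕ,
      (∀ s, C s < q v ^ N v) ∧
      DigB (q v) (N v) (e v) r (x v) (fun z => T z (fun i => τ i v)) (j v) (t v) F C (y v)) := by
  have hQ : DFun m (fun v => q v ^ N v) := dfun_powLe hq hN hB hqN
  have h := Delta0.bexVec (D := r) (b := fun v => q v ^ N v) hQ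
    (P := fun F v => (∀ s, F s < q v ^ N v) ∧ ∃ C : Fin r → ℕ, (∀ s, C s < q v ^ N v) ∧
      DigB (q v) (N v) (e v) r (x v) (fun z => T z (fun i => τ i v)) (j v) (t v)
      F C (y v)) (fun m' X V hX hV =>
      (Delta0.allOf fun s => Delta0.ltFun (hX s) (hQ.comp hV)).and
        (exC_delta hT (τ := fun i w => τ i (fun j => V j w)) (fun i => (hτ i).comp hV)
          (hq.comp hV) (hN.comp hV) (he.comp hV) (hx.comp hV) (hj.comp hV) (ht.comp hV)
          (hy.comp hV) (hB.comp hV) (hK.comp hV) hX (fun w => h2 _)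
          (fun w => he1 _) (fun w => hqN _) (fun w => hqe _) (fun w => hQK _) (fun w => hNK _)))
  refine h.of_iff fun v => ⟨?_, ?_⟩
  · rintro ⟨C, hC, h3⟩
    exact ⟨C, fun s => (hC s).le, hC, h3⟩
  · rintro ⟨C, _, hC, h3⟩
    exact ⟨C, hC, h3⟩

end

open Cor in
theorem band_iter_pp {n r : ℕ} {q N B x t : (Fin n → ℕ) → ℕ} {T : ℕ → (Fin n → ℕ) → ℕ}
    (hq : DFun n q) (hN : DFun n N) (hB : DFun n B) (hx : DFun n x) (ht : DFun n t)
    (hT : DFun (n + 1) (fun w => T (w 0) (fun i => w i.succ))) (hpp : ∀ v, IsPrimePow (q v))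
    (hqN : ∀ v, q v ^ N v ≤ B v) (hTb : ∀ v z, z < q v ^ N v → T z v < q v ^ N v)
    (hlin : ∀ v, ∃ A : Matrix (Fin (N v)) (Fin (N v)) (ZMod (q v)), BandRank r A ∧
      ∀ z, z < q v ^ N v → vecOf (q v) (N v) (T z v) = A.mulVec (vecOf (q v) (N v) z))
    (hxb : ∀ v, x v < q v ^ N v) : DFun n (fun v => (fun z => T z v)^[t v] (x v)) := by
  classical
  have h2 : ∀ v, 2 ≤ q v := fun v => (hpp v).two_le
  have hex : ∀ v, ∃ k, 0 < k ∧ (q v).minFac.Prime ∧ q v = (q v).minFac ^ k := by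
    intro v
    obtain ⟨p, k, hp, hk, hpk⟩ := (isPrimePow_nat_iff _).1 (hpp v)
    have h3 : (q v).minFac = p := by
      rw [← hpk]
      exact hp.pow_minFac hk.ne'
    exact ⟨k, hk, by rw [h3]; exact hp, by rw [h3, hpk]⟩
  choose k hk hp hqk using hex
  have hp2 : ∀ v, 2 ≤ (q v).minFac := fun v => (hp v).two_le
  obtain ⟨N', hN'def⟩ : ∃ N' : (Fin n → ℕ) → ℕ, N' = fun v => if N v = 0 then 1 else N v :=
    ⟨_, rfl⟩
  have hN' : DFun n N' := by
    rw [hN'def]
    exact DFun.ite (Delta0.eqFun hN (DFun.const 0)) (DFun.const 1) hN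
  have hN1 : ∀ v, 1 ≤ N' v := by
    intro v
    rw [hN'def]
    simp only
    split_ifs <;> omega
  have hNN : ∀ v, N v ≤ N' v := by
    intro v
    rw [hN'def]
    simp only
    split_ifs <;> omega
  have hNe : ∀ v, N v ≠ 0 → N' v = N v := by
    intro v hv
    rw [hN'def]
    simp only
    rw [if_neg hv]
  obtain ⟨e, hedef⟩ : ∃ e : (Fin n → ℕ) → ℕ, e = fun v => ee (q v).minFac (N' v) := ⟨_, rfl⟩
  have he : DFun n e := by
    rw [hedef]
    exact ee_def (minFac_def hq h2) hN' hp2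
  have he1 : ∀ v, 1 ≤ e v := by
    intro v
    rw [hedef]
    exact le_max_left _ _
  have hc : ∀ v, 3 * N' v ≤ (q v).minFac ^ e v := by
    intro v
    rw [← Nat.clog_le_iff_le_pow (by have := hp2 v; omega), hedef]
    exact le_max_right _ _
  have hmin : ∀ v, e v = 1 ∨ (q v).minFac ^ (e v - 1) < 3 * N' v := by
    intro v
    by_cases h1 : e v = 1
    · exact Or.inl h1
    · refine Or.inr ?_
      rw [← not_le, ← Nat.clog_le_iff_le_pow (by have := hp2 v; omega)]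
      rw [hedef] at h1 ⊢
      simp only [ee] at h1 ⊢
      omega
  have hqN1 : ∀ v, q v ^ N' v ≤ B v + q v := by
    intro v
    by_cases h0 : N v = 0
    · rw [hN'def]
      simp only
      rw [if_pos h0, pow_one]
      omega
    · rw [hNe v h0]
      exact (hqN v).trans (Nat.le_add_right _ _)
  have hbd := fun v => band_bound (hp v) (hk v) (hqk v) (hN1 v) (hqN1 v) (hmin v) (he1 v)
  obtain ⟨K, hKdef⟩ : ∃ K : (Fin n → ℕ) → ℕ, K = fun v => Nat.sqrt (N' v) + 1 := ⟨_, rfl⟩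
  have hK : DFun n K := by
    rw [hKdef]
    exact (sqrt_def hN').add (DFun.const 1)
  obtain ⟨B', hB'def⟩ : ∃ B' : (Fin n → ℕ) → ℕ, B' = fun v => (B v + q v) ^ 20 := ⟨_, rfl⟩
  have hB' : DFun n B' := by
    rw [hB'def]
    exact Pool.Agent.PTr.DFun.powConst (hB.add hq) 20
  have hQK : ∀ v, (q v ^ e v) ^ (K v + 1) ≤ B' v := by
    intro v
    rw [hKdef, hB'def]
    exact (hbd v).1
  have hNK : ∀ v, N' v ≤ K v * K v := by
    intro v
    rw [hKdef]
    exact (hbd v).2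
  have hqe : ∀ v, q v ^ e v ≤ B' v := fun v =>
    (Nat.le_self_pow (by omega) _).trans (hQK v)
  have hqN' : ∀ v, q v ^ N' v ≤ B' v := by
    intro v
    rw [hB'def]
    exact (hqN1 v).trans (Nat.le_self_pow (by norm_num) _)
  -- the digits
  have hD : DFun (n + 1) (fun w => if w 0 < N (fun i => w i.succ) then
      dg (q (fun i => w i.succ)) ((fun z => T z (fun i => w i.succ))^[t (fun i => w i.succ)]
        (x (fun i => w i.succ))) (w 0) else 0) := by
    refine DFun.ofGraph hq.weak ?_ ?_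
    · intro w
      split_ifs
      · exact (dg_lt (by have := h2 (fun i => w i.succ); omega) _ _).le
      · exact Nat.zero_le _
    · have h0 : DFun (n + 1 + 1) (fun w : Fin (n + 1 + 1) → ℕ => w 0) := DFun.proj 0
      have h1 : DFun (n + 1 + 1) (fun w : Fin (n + 1 + 1) → ℕ => w (Fin.succ 0)) :=
        DFun.proj (Fin.succ 0)
      have hdig := exF_delta (m := n + 1 + 1) (r := r) hT (τ := fun i w => w i.succ.succ)
        (fun i => DFun.proj _) hq.weak.weak
        hN'.weak.weak he.weak.weak hx.weak.weak h1 ht.weak.weak h0 hB'.weak.weak hK.weak.weak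
        (fun w => h2 _) (fun w => he1 _) (fun w => hqN' _) (fun w => hqe _) (fun w => hQK _)
        (fun w => hNK _)
      have h3 := ((Delta0.ltFun h1 hN.weak.weak).and hdig).or
        ((Delta0.ltFun h1 hN.weak.weak).not.and (Delta0.eqFun h0 (DFun.const 0)))
      refine h3.of_iff fun w => ?_
      set v : Fin n → ℕ := fun i => w i.succ.succ with hv
      show (w 0 = if w (Fin.succ 0) < N v then
        dg (q v) ((fun z => T z v)^[t v] (x v)) (w (Fin.succ 0)) else 0) ↔ _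
      by_cases hj : w (Fin.succ 0) < N v
      · rw [if_pos hj]
        have hN0 : N v ≠ 0 := by omega
        have hNv := hNe v hN0
        obtain ⟨A, hbr, hA⟩ := hlin v
        have h4 := digB_iff (y := w 0) (t := t v) (hp v) (hk v) (hqk v) (he1 v)
          (by have := hc v; rwa [hNv] at this) hbr (hTb v) hA (hxb v) hj
        rw [← h4]
        constructor
        · intro h5
          refine Or.inl ⟨hj, ?_⟩
          rw [hNv]
          exact h5
        · rintro (⟨_, h5⟩ | ⟨h5, _⟩)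
          · rw [hNv] at h5
            exact h5
          · exact absurd hj h5
      · rw [if_neg hj]
        constructor
        · intro h5
          exact Or.inr ⟨hj, h5⟩
        · rintro (⟨h5, _⟩ | ⟨_, h5⟩)
          · exact absurd h5 hj
          · exact h5
  have hcode := dfun_code (g := fun i v => if i < N v then
      dg (q v) ((fun z => T z v)^[t v] (x v)) i else 0) hq hN hB hD h2 hqN
  have hfin : (fun v => (fun z => T z v)^[t v] (x v)) = fun v => ∑ i ∈ range (N v),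
      (if i < N v then dg (q v) ((fun z => T z v)^[t v] (x v)) i else 0) * q v ^ i := by
    funext v
    conv_lhs => rw [orbit_code (hTb v) (hxb v) (t v)]
    refine Finset.sum_congr rfl fun i hi => ?_
    rw [if_pos (mem_range.1 hi)]
  rw [hfin]
  exact hcode

end Pool.Agent.H63LB
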