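import Pool.Agent.H63LB.Rel

/-!
# Package RelB: from a path to a solution (pure)

`u l i = (dg q (ax (st i) r) l : ZMod q)`. For `κ ≤ 2 r`, `i < N`, `r ≤ i + κ < N + r` the overlap
conditions give `ax (st i) κ = ax (st (i + κ - r)) r`; the accumulators are the partial sums.
-/

set_option autoImplicit false

namespace Pool.Agent.H63LB

open Finset Polynomial Pool.Agent.LinU

namespace RB

lemma band_sum {R : Type*} [CommRing R] {N r i : ℕ} (J u : ℕ → R)
    (hJ : ∀ j, j < N → (i + r < j ∨ j + r < i) → J j = 0) :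
    ∑ κ ∈ range (2 * r + 1), (if r ≤ i + κ ∧ i + κ < N + r then
      J (i + κ - r) * u (i + κ - r) else 0) = ∑ j ∈ range N, J j * u j := by
  rw [← Finset.sum_filter]
  have h1 : ∑ j ∈ range N, J j * u j =
      ∑ j ∈ (range N).filter (fun j => i ≤ j + r ∧ j ≤ i + r), J j * u j := by
    rw [Finset.sum_filter]
    refine Finset.sum_congr rfl fun j hj => ?_
    by_cases h : i ≤ j + r ∧ j ≤ i + r
    · rw [if_pos h]
    · rw [if_neg h, hJ j (mem_range.1 hj) (by omega), zero_mul]
  rw [h1]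
  refine Finset.sum_nbij' (fun κ => i + κ - r) (fun j => j + r - i) ?_ ?_ ?_ ?_ ?_
  · intro κ hκ
    simp only [mem_filter, mem_range] at hκ ⊢
    omega
  · intro j hj
    simp only [mem_filter, mem_range] at hj ⊢
    omega
  · intro κ hκ
    simp only [mem_filter, mem_range] at hκ
    omega
  · intro j hj
    simp only [mem_filter, mem_range] at hj
    omega
  · intro κ _
    rfl

lemma qm1 {q : ℕ} (hq : 1 ≤ q) : (((q - 1 : ℕ)) : ZMod q) = -1 := by
  rw [Nat.cast_sub hq, ZMod.natCast_self, Nat.cast_one, zero_sub]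

lemma ac_cast {q N i j : ℕ} {T : ℕ → ℕ} (hq : 2 ≤ q) {A : Matrix (Fin N) (Fin N) (ZMod q)}
    (hA : ∀ z, z < q ^ N → vecOf q N (T z) = A.mulVec (vecOf q N z)) (hi : i < N) (hj : j < N) :
    ((ac q N T i j : ℕ) : ZMod q) = A ⟨i, hi⟩ ⟨j, hj⟩ := by
  unfold ac
  rw [min_eq_left hj.le]
  have h1 := congrFun (hA (q ^ j) (Nat.pow_lt_pow_right (by omega) hj)) ⟨i, hi⟩
  have h2 : vecOf q N (q ^ j) = Pi.single ⟨j, hj⟩ 1 := by
    funext l
    have h3 := A7.dg_top (c := 0) hq (pow_pos (by omega : 0 < q) j) l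
    rw [zero_add, A7.dg_zero] at h3
    show ((dg q (q ^ j) l : ℕ) : ZMod q) = _
    rw [h3, Pi.single_apply]
    by_cases h4 : (l : ℕ) = j
    · rw [if_neg (by omega), if_pos h4, if_pos (Fin.ext h4)]
      simp
    · rw [if_neg (show ¬ l = ⟨j, hj⟩ from fun h => h4 (by rw [h]))]
      split_ifs <;> simp
  rw [h2] at h1
  have h5 : ((dg q (T (q ^ j)) i : ℕ) : ZMod q) = (A.mulVec (Pi.single ⟨j, hj⟩ 1)) ⟨i, hi⟩ := h1
  rw [h5]
  simp [Matrix.mulVec, dotProduct, Pi.single_apply]

end RB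

open RB in
theorem sol_of_rr {q N e r x j g U : ℕ} {T : ℕ → ℕ} {F C : Fin r → ℕ} (hq : 2 ≤ q) (he : 1 ≤ e)
    (hj : j < N) {A : Matrix (Fin N) (Fin N) (ZMod q)}
    (hA : ∀ z, z < q ^ N → vecOf q N (T z) = A.mulVec (vecOf q N z)) (hV : Valid q N r T F C)
    (h : RR q N e r x T j F C g U) :
    ∃ u : ℕ → Fin N → ZMod q, SolR.Sol A.mulVecLin (vecOf q N x) e (mu (ZMod q) q e g) u ∧
      ∀ l, l < e → ((dg q U l : ℕ) : ZMod q) = u l ⟨j, hj⟩ := by
  obtain ⟨lam, hlam, st, hst, hE⟩ := h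
  have hN : 1 ≤ N := by omega
  -- overlaps
  have hov : ∀ i, i < N → ∀ κ, κ < 2 * r → ax (st (i + 1)) κ = ax (st i) (κ + 1) :=
    fun i hi => (hE i hi).1
  have hfw : ∀ d i, r + d ≤ 2 * r → i + d ≤ N → ax (st i) (r + d) = ax (st (i + d)) r := by
    intro d
    induction d with
    | zero => intro i _ _; rfl
    | succ d ih =>
      intro i h1 h2
      have h3 := hov i (by omega) (r + d) (by omega)
      have h4 := ih (i + 1) (by omega) (by omega)
      rw [show r + (d + 1) = r + d + 1 by omega, ← h3, h4]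
      congr 2
      omega
  have hbw : ∀ d i, d ≤ r → i + d ≤ N → ax (st (i + d)) (r - d) = ax (st i) r := by
    intro d
    induction d with
    | zero => intro i _ _; rfl
    | succ d ih =>
      intro i h1 h2
      have h3 := hov (i + d) (by omega) (r - (d + 1)) (by omega)
      have h4 := ih i (by omega) (by omega)
      rw [show i + (d + 1) = i + d + 1 by omega, h3, show r - (d + 1) + 1 = r - d by omega, h4]
  have hcell : ∀ i, i < N → ∀ κ, κ < 2 * r + 1 → r ≤ i + κ → i + κ < N + r →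
      ax (st i) κ = ax (st (i + κ - r)) r := by
    intro i hi κ hκ h1 h2
    rcases le_total r κ with h3 | h3
    · obtain ⟨d, rfl⟩ := Nat.exists_eq_add_of_le h3
      rw [hfw d i (by omega) (by omega)]
      congr 2
      omega
    · obtain ⟨d, hd⟩ := Nat.exists_eq_add_of_le h3
      have h4 := hbw d (i - d) (by omega) (by omega)
      rw [show i - d + d = i by omega, show r - d = κ by omega] at h4
      rw [h4]
      congr 2
      omega
  -- accumulators
  have hacc : ∀ i, i ≤ N → ∀ (s : Fin r) l, l < e →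
      ((dg q (ax (st i) (2 * r + 1 + s)) l : ℕ) : ZMod q) =
      ∑ j' ∈ range i, ((dg q (C s) j' : ℕ) : ZMod q) * ((dg q (ax (st j') r) l : ℕ) : ZMod q) := by
    intro i
    induction i with
    | zero =>
      intro _ s l _
      rw [(hE 0 (by omega)).2.2.2.1 rfl s, A7.dg_zero]
      simp
    | succ i ih =>
      intro hi s l hl
      have h1 := (hE i (by omega)).2.2.2.2.1 s l hl
      rw [← ZMod.natCast_eq_natCast_iff'] at h1
      rw [h1, Finset.sum_range_succ, ← ih (by omega) s l hl]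
      push_cast
      ring
  have hlamS : ∀ (s : Fin r) l, l < e → ((dg q (lam s) l : ℕ) : ZMod q) =
      ∑ j' ∈ range N, ((dg q (C s) j' : ℕ) : ZMod q) * ((dg q (ax (st j') r) l : ℕ) : ZMod q) := by
    intro s l hl
    have h1 := (hE (N - 1) (by omega)).2.2.2.2.2 (by omega) s
    rw [show N - 1 + 1 = N by omega] at h1
    rw [← h1]
    exact hacc N le_rfl s l hl
  refine ⟨fun l i => ((dg q (ax (st i) r) l : ℕ) : ZMod q), ?_, ?_⟩
  · intro l hl
    funext i
    obtain ⟨i, hi⟩ := i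
    have h1 := (hE i hi).2.1 l hl
    rw [← ZMod.natCast_eq_natCast_iff'] at h1
    -- the matrix applied to `u l`
    have h2 : (A.mulVec fun i' : Fin N => ((dg q (ax (st i') r) l : ℕ) : ZMod q)) ⟨i, hi⟩ =
        ∑ j' ∈ range N, ((ac q N T i j' : ℕ) : ZMod q) *
          ((dg q (ax (st j') r) l : ℕ) : ZMod q) := by
      rw [← Fin.sum_univ_eq_sum_range (fun j' => ((ac q N T i j' : ℕ) : ZMod q) *
          ((dg q (ax (st j') r) l : ℕ) : ZMod q)) N]
      show (∑ j' : Fin N, A ⟨i, hi⟩ j' * ((dg q (ax (st j') r) l : ℕ) : ZMod q)) =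
        ∑ j' : Fin N, ((ac q N T i j' : ℕ) : ZMod q) * ((dg q (ax (st j') r) l : ℕ) : ZMod q)
      refine Finset.sum_congr rfl fun j' _ => ?_
      rw [ac_cast hq hA hi j'.2]
    set J : ℕ → ZMod q := fun j' => ((ac q N T i j' : ℕ) : ZMod q) -
      ((fc q r F C i j' : ℕ) : ZMod q) with hJ
    have hJ0 : ∀ j', j' < N → (i + r < j' ∨ j' + r < i) → J j' = 0 := by
      intro j' hj' hb
      have h3 := hV i hi j' hj' hb
      rw [← ZMod.natCast_eq_natCast_iff'] at h3
      rw [hJ]
      simp only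
      rw [h3, sub_self]
    have h4 := band_sum (N := N) (r := r) (i := i) J
      (fun j' => ((dg q (ax (st j') r) l : ℕ) : ZMod q)) hJ0
    have h5 : ∑ j' ∈ range N, ((ac q N T i j' : ℕ) : ZMod q) *
          ((dg q (ax (st j') r) l : ℕ) : ZMod q) =
        ∑ j' ∈ range N, J j' * ((dg q (ax (st j') r) l : ℕ) : ZMod q) +
        ∑ s : Fin r, ((dg q (F s) i : ℕ) : ZMod q) * ((dg q (lam s) l : ℕ) : ZMod q) := by
      have h6 : ∑ s : Fin r, ((dg q (F s) i : ℕ) : ZMod q) * ((dg q (lam s) l : ℕ) : ZMod q) =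
          ∑ j' ∈ range N, ((fc q r F C i j' : ℕ) : ZMod q) *
            ((dg q (ax (st j') r) l : ℕ) : ZMod q) := by
        have h7 : ∀ s : Fin r, ((dg q (F s) i : ℕ) : ZMod q) * ((dg q (lam s) l : ℕ) : ZMod q) =
            ∑ j' ∈ range N, ((dg q (F s) i : ℕ) : ZMod q) * (((dg q (C s) j' : ℕ) : ZMod q) *
              ((dg q (ax (st j') r) l : ℕ) : ZMod q)) := by
          intro s
          rw [hlamS s l hl, Finset.mul_sum]
        simp only [h7]
        rw [Finset.sum_comm]
        refine Finset.sum_congr rfl fun j' _ => ?_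
        unfold fc
        push_cast
        rw [Finset.sum_mul]
        refine Finset.sum_congr rfl fun s _ => ?_
        ring
      rw [h6, ← Finset.sum_add_distrib]
      refine Finset.sum_congr rfl fun j' _ => ?_
      rw [hJ]
      ring
    have h8 : ((∑ κ ∈ range (2 * r + 1), if r ≤ i + κ ∧ i + κ < N + r then
        (ac q N T i (i + κ - r) + (q - 1) * fc q r F C i (i + κ - r)) * dg q (ax (st i) κ) l
        else 0 : ℕ) : ZMod q) =
        ∑ κ ∈ range (2 * r + 1), (if r ≤ i + κ ∧ i + κ < N + r then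
          J (i + κ - r) * ((dg q (ax (st (i + κ - r)) r) l : ℕ) : ZMod q) else 0) := by
      rw [Nat.cast_sum]
      refine Finset.sum_congr rfl fun κ hκ => ?_
      by_cases hc : r ≤ i + κ ∧ i + κ < N + r
      · rw [if_pos hc, if_pos hc, hcell i hi κ (mem_range.1 hκ) hc.1 hc.2, Nat.cast_mul,
          Nat.cast_add, Nat.cast_mul, qm1 (by omega), hJ]
        ring
      · rw [if_neg hc, if_neg hc, Nat.cast_zero]
    rw [Nat.cast_add, Nat.cast_add, Nat.cast_add, h8, h4] at h1
    have h9 : ((∑ s : Fin r, dg q (F s) i * dg q (lam s) l : ℕ) : ZMod q) =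
        ∑ s : Fin r, ((dg q (F s) i : ℕ) : ZMod q) * ((dg q (lam s) l : ℕ) : ZMod q) := by
      push_cast
      rfl
    rw [h9, ← h5, ← h2] at h1
    show (A.mulVec fun i' : Fin N => ((dg q (ax (st i') r) l : ℕ) : ZMod q)) ⟨i, hi⟩ =
      (if l = 0 then (0 : Fin N → ZMod q) else
        fun i' : Fin N => ((dg q (ax (st i') r) (l - 1) : ℕ) : ZMod q)) ⟨i, hi⟩ -
      (mu (ZMod q) q e g).coeff l * ((dg q (ax (st i) r) (e - 1) : ℕ) : ZMod q) -
      (if l = 0 then vecOf q N x else 0) ⟨i, hi⟩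
    rw [A7.mu_coeff, if_pos hl]
    by_cases h0 : l = 0
    · simp only [if_pos h0] at h1 ⊢
      have h10 : vecOf q N x ⟨i, hi⟩ = ((dg q x i : ℕ) : ZMod q) := rfl
      rw [h10, Pi.zero_apply]
      push_cast at h1
      linear_combination h1
    · simp only [if_neg h0] at h1 ⊢
      rw [Pi.zero_apply]
      push_cast at h1
      linear_combination h1
  · intro l _
    have h1 := (hE j hj).2.2.1 rfl
    simp only
    rw [h1]

end Pool.Agent.H63LB
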