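import Pool.Agent.H63LB.RelA
import Pool.Agent.H63LB.RelB
import Pool.Agent.LinU.P7b

/-!
# Band plus small rank: good pairs and the digit formula (pure)
-/

set_option autoImplicit false

namespace Pool.Agent.H63LB

open Finset Polynomial Module Pool.Agent.LinU Pool.Agent.LinU.A7

lemma divU_iff {q N e g U ν P : ℕ} (hq : 2 ≤ q) (hg : g < q ^ e) (hU : U < q ^ e)
    (hν : ν < q ^ N) (hP : P < q ^ N) (hN0 : 0 < N) :
    mu (ZMod q) q e g ∣ mu (ZMod q) q N ν * pol (ZMod q) q e U - pol (ZMod q) q N P ↔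
      ∃ h, h < q ^ N ∧ DivU q N e g U ν P h := by
  have h0q : 0 < q := by omega
  haveI : Nontrivial (ZMod q) := ZMod.nontrivial_iff.2 (by omega)
  set G := mu (ZMod q) q e g with hG
  set M := mu (ZMod q) q N ν with hM
  obtain ⟨hGm, hGe⟩ := mu_monic_deg (A := ZMod q) q e g
  obtain ⟨hMm, hMN⟩ := mu_monic_deg (A := ZMod q) q N ν
  rw [← hG] at hGm hGe
  rw [← hM] at hMm hMN
  -- coefficients of the two products
  have hl : ∀ k, (M * pol (ZMod q) q e U).coeff k = ((∑ a ∈ range (k + 1),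
      dg q (ν + q ^ N) a * dg q U (k - a) : ℕ) : ZMod q) := by
    intro k
    rw [coeff_mul, Finset.Nat.sum_antidiagonal_eq_sum_range_succ
      (fun a b => M.coeff a * (pol (ZMod q) q e U).coeff b)]
    push_cast
    refine Finset.sum_congr rfl fun i _ => ?_
    rw [hM, mu_coeff' hq hν, pol_coeff' h0q hU]
  have hr : ∀ h, h < q ^ N → ∀ k, (G * pol (ZMod q) q N h).coeff k =
      ((∑ a ∈ range (k + 1), dg q (g + q ^ e) a * dg q h (k - a) : ℕ) : ZMod q) := by
    intro h hh k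
    rw [coeff_mul, Finset.Nat.sum_antidiagonal_eq_sum_range_succ
      (fun a b => G.coeff a * (pol (ZMod q) q N h).coeff b)]
    push_cast
    refine Finset.sum_congr rfl fun i _ => ?_
    rw [hG, mu_coeff' hq hg, pol_coeff' h0q hh]
  have hPc : ∀ k, (pol (ZMod q) q N P).coeff k = ((dg q P k : ℕ) : ZMod q) :=
    pol_coeff' h0q hP
  -- degrees
  have hMU : (M * pol (ZMod q) q e U).degree < ((N + e : ℕ) : WithBot ℕ) :=
    mul_degree_lt hMm hMN (pol_degree q e U)
  have hPd : (pol (ZMod q) q N P).degree < ((N + e : ℕ) : WithBot ℕ) :=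
    (pol_degree q N P).trans_le (by exact_mod_cast Nat.le_add_right N e)
  have key : ∀ h, h < q ^ N → (M * pol (ZMod q) q e U - pol (ZMod q) q N P =
      G * pol (ZMod q) q N h ↔ DivU q N e g U ν P h) := by
    intro h hh
    have hGh : (G * pol (ZMod q) q N h).degree < ((N + e : ℕ) : WithBot ℕ) := by
      rw [add_comm N e]
      exact mul_degree_lt hGm hGe (pol_degree q N h)
    rw [sub_eq_iff_eq_add']
    unfold DivU
    constructor
    · intro heq k _
      rw [← ZMod.natCast_eq_natCast_iff', Nat.cast_add, ← hl, ← hr h hh, ← hPc, heq, coeff_add]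
    · intro hD
      ext k
      by_cases hk : k < N + e
      · have h1 := hD k hk
        rw [← ZMod.natCast_eq_natCast_iff', Nat.cast_add, ← hl, ← hr h hh, ← hPc] at h1
        rw [coeff_add]
        exact h1
      · have hk' : ((N + e : ℕ) : WithBot ℕ) ≤ (k : WithBot ℕ) := by
          exact_mod_cast not_lt.1 hk
        rw [coeff_add, coeff_eq_zero_of_degree_lt (hMU.trans_le hk'),
          coeff_eq_zero_of_degree_lt (hGh.trans_le hk'),
          coeff_eq_zero_of_degree_lt (hPd.trans_le hk'), add_zero]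
  constructor
  · rintro ⟨H, hH⟩
    have hHd : H.degree < N := by
      rcases eq_or_ne H 0 with h0 | h0
      · rw [h0, degree_zero]
        exact WithBot.bot_lt_coe _
      · have h3 : (H * G).degree < ((N + e : ℕ) : WithBot ℕ) := by
          rw [mul_comm, ← hH]
          exact (degree_sub_le _ _).trans_lt (max_lt hMU hPd)
        rw [hGm.degree_mul, degree_eq_natDegree hGm.ne_zero, hGe, degree_eq_natDegree h0] at h3
        have h4 : H.natDegree + e < N + e := by exact_mod_cast h3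
        rw [degree_eq_natDegree h0]
        have : H.natDegree < N := by omega
        exact_mod_cast this
    refine ⟨cde N H, cde_lt hq H, (key _ (cde_lt hq H)).1 ?_⟩
    rw [pol_cde hq hHd]
    exact hH
  · rintro ⟨h, hh, hD⟩
    exact ⟨_, (key h hh).2 hD⟩

lemma pol_eq_uPol {q N e j U : ℕ} (hq : 2 ≤ q) (hU : U < q ^ e) (hj : j < N)
    {u : ℕ → Fin N → ZMod q} (hu : ∀ l, l < e → ((dg q U l : ℕ) : ZMod q) = u l ⟨j, hj⟩) :
    pol (ZMod q) q e U = SolR.uPol (prj q N ⟨j, hj⟩) e u := by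
  ext l
  by_cases hl : l < e
  · rw [pol_coeff, if_pos hl, SolR.uPol_coeff _ _ hl, hu l hl]
    rfl
  · rw [pol_coeff, if_neg hl, coeff_eq_zero_of_degree_lt]
    refine (SolR.uPol_degree _ _ _).trans_le ?_
    exact_mod_cast not_lt.1 hl

theorem goodB_exists {q N e r x j : ℕ} {T : ℕ → ℕ} {F C : Fin r → ℕ} (hq : 2 ≤ q) (he : 1 ≤ e)
    (hj : j < N) {A : Matrix (Fin N) (Fin N) (ZMod q)}
    (hA : ∀ z, z < q ^ N → vecOf q N (T z) = A.mulVec (vecOf q N z)) (hV : Valid q N r T F C) :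
    ∃ ν P, ν < q ^ N ∧ P < q ^ N ∧ GoodB q N e r x T j F C ν P := by
  haveI : Nontrivial (ZMod q) := ZMod.nontrivial_iff.2 (by omega)
  obtain ⟨ν, P, hν, hνN, hP, h⟩ :=
    SolR.exists_sol_rational A.mulVecLin (prj q N ⟨j, hj⟩) (vecOf q N x)
  refine ⟨cde N ν, cde N P, cde_lt hq ν, cde_lt hq P, ?_⟩
  intro g hg U hU hR
  obtain ⟨u, hs, hu⟩ := sol_of_rr hq he hj hA hV hR
  obtain ⟨hGm, hGe⟩ := mu_monic_deg (A := ZMod q) q e g
  have h1 := h e he _ hGm hGe _ hs
  rw [← divU_iff hq hg hU (cde_lt hq ν) (cde_lt hq P) (by omega), mu_cde hq hν hνN,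
    pol_cde hq hP, pol_eq_uPol hq hU hj hu]
  exact h1

theorem goodB_digit {p k q N e r x j ν P : ℕ} {T : ℕ → ℕ} {F C : Fin r → ℕ} (hp : p.Prime)
    (hk : 0 < k) (hqp : q = p ^ k) (he : 1 ≤ e) (hc : 3 * N ≤ p ^ e)
    {A : Matrix (Fin N) (Fin N) (ZMod q)} (hTb : ∀ z, z < q ^ N → T z < q ^ N)
    (hA : ∀ z, z < q ^ N → vecOf q N (T z) = A.mulVec (vecOf q N z)) (hV : Valid q N r T F C)
    (hx : x < q ^ N) (hj : j < N) (hν : ν < q ^ N) (hP : P < q ^ N)
    (h : GoodB q N e r x T j F C ν P) (t : ℕ) :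
    dg q (T^[t] x) j =
      dg q (cde N ((X ^ t * pol (ZMod q) q N P) %ₘ mu (ZMod q) q N ν)) (N - 1) := by
  have hq : 2 ≤ q := by
    rw [hqp]
    exact hp.two_le.trans (Nat.le_self_pow hk.ne' p)
  haveI : Nontrivial (ZMod q) := ZMod.nontrivial_iff.2 (by omega)
  obtain ⟨hMm, hMN⟩ := mu_monic_deg (A := ZMod q) q N ν
  have hmain := SolR.sol_coeff hp hk hqp (by omega) he hc A.mulVecLin (prj q N ⟨j, hj⟩)
    (vecOf q N x) hMm hMN (pol_degree q N P) (by
      intro g hg hge u hs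
      obtain ⟨U, hU, hUu⟩ := exists_code hq e (fun l : Fin e => u l ⟨j, hj⟩)
      have hu : ∀ l, l < e → ((dg q U l : ℕ) : ZMod q) = u l ⟨j, hj⟩ := fun l hl =>
        congrFun hUu ⟨l, hl⟩
      have hs' : SolR.Sol A.mulVecLin (vecOf q N x) e (mu (ZMod q) q e (cde e g)) u := by
        rw [mu_cde hq hg hge]
        exact hs
      have hR := rr_of_sol (F := F) (C := C) hq he hj hU hA hV hs' hu
      have h4 := h (cde e g) (cde_lt hq g) U hU hR
      rw [← divU_iff hq (cde_lt hq g) hU hν hP (by omega), mu_cde hq hg hge,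
        pol_eq_uPol hq hU hj hu] at h4
      exact h4) t
  have h1 := orbit_vec (A := A.mulVecLin) hTb hx (fun z hz => by
    rw [hA z hz]
    rfl) t
  have h2 : ((dg q (T^[t] x) j : ℕ) : ZMod q) =
      ((X ^ t * pol (ZMod q) q N P) %ₘ mu (ZMod q) q N ν).coeff (N - 1) := by
    rw [← hmain, ← h1]
    rfl
  rw [dg_cde hq _ (by omega : N - 1 < N), ← h2, ZMod.val_natCast_of_lt]
  exact dg_lt (by omega) _ _

end Pool.Agent.H63LB
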