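import Pool.Agent.LinU.R11
import Pool.Agent.H63LB.Aff

/-!
# Band plus small rank: all moduli

*Proof.* As in `Pool.Agent.LinU.R11`: the reduction modulo a prime power `q` dividing `m v` is a
map of the same kind (`BandRank.map`), its iterates are in `DFun (n + 1)` by `band_aff_pp`, and the
digits of `T^[t] x` are determined by their residues modulo these prime powers. ∎
-/

set_option autoImplicit false

namespace Pool.Agent.H63LB

open Finset Polynomial Pool.Agent.Grz Pool.Agent.GAvg Pool.Agent.PTr Pool.Agent.MTr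
open Pool.Agent.LPC Pool.Agent.ECD Pool.Agent.LinU Pool.Agent.LinU.R11

theorem BandRank.map {R S : Type*} [CommRing R] [CommRing S] (f : R →+* S) {r N : ℕ}
    {A : Matrix (Fin N) (Fin N) R} (h : BandRank r A) : BandRank r (A.map f) := by
  obtain ⟨J, F, C, hJ, rfl⟩ := h
  refine ⟨J.map f, F.map f, C.map f, fun i j hij => ?_, ?_⟩
  · rw [Matrix.map_apply, hJ i j hij, map_zero]
  · ext i j
    simp only [Matrix.map_apply, Matrix.add_apply, Matrix.mul_apply, map_add, map_sum, map_mul]

/-- the reduced map is of the same kind -/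
theorem band_red {m N p r : ℕ} {T : ℕ → ℕ} (hp0 : 0 < p) (hm : 0 < m) (hp : p ∣ m)
    (haff : ∃ (A : Matrix (Fin N) (Fin N) (ZMod m)) (b : Fin N → ZMod m), BandRank r A ∧
      ∀ z, z < m ^ N → vecOf m N (T z) = A.mulVec (vecOf m N z) + b) :
    ∃ (A : Matrix (Fin N) (Fin N) (ZMod p)) (b : Fin N → ZMod p), BandRank r A ∧
      ∀ z, z < p ^ N → vecOf p N (dn p m N (T (up p m N z))) = A.mulVec (vecOf p N z) + b := by
  obtain ⟨A, b, hA, h⟩ := haff
  have hpm := Nat.le_of_dvd hm hp
  refine ⟨A.map (ZMod.castHom hp (ZMod p)), fun j => ZMod.castHom hp (ZMod p) (b j), hA.map _,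
    fun z _ => ?_⟩
  funext i
  have h1 := cast_T hp h (up_lt hp0 hpm z) i
  have h2 : (fun j : Fin N => ((dg m (up p m N z) j : ℕ) : ZMod p)) = vecOf p N z := by
    funext j
    rw [dg_up hp0 hpm z j.isLt]
    rfl
  rw [h2] at h1
  rw [← h1]
  unfold vecOf
  rw [dg_dn hp0 _ i.isLt, ZMod.natCast_mod]

section defin

variable {n : ℕ} {m N B : (Fin n → ℕ) → ℕ}

theorem band_bd (hm0 : ∀ v, 0 < m v) (hmN : ∀ v, m v ^ N v ≤ B v) (p : ℕ) (v : Fin n → ℕ) :
    m1 m v ^ nn m N p v ≤ B v + 1 ∧ pp m p v ^ nn m N p v ≤ B v + 1 := by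
  by_cases h : LinU.R11.Valid m p v
  · have h1 : nn m N p v = N v := by unfold nn; rw [if_pos h]
    have h2 : pp m p v = p := by unfold pp; rw [if_pos h]
    have h3 : p ≤ m v := Nat.le_of_dvd (hm0 v) h.2
    have h4 := hmN v
    rw [h1, h2, m1_eq h (hm0 v)]
    exact ⟨h4.trans (Nat.le_succ _), ((Nat.pow_le_pow_left h3 _).trans h4).trans (Nat.le_succ _)⟩
  · have h1 : nn m N p v = 0 := by unfold nn; rw [if_neg h]
    rw [h1]
    simp

theorem band_up (hm0 : ∀ v, 0 < m v) (hmN : ∀ v, m v ^ N v ≤ B v) {k : ℕ}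
    {a z : (Fin k → ℕ) → ℕ} {s : (Fin k → ℕ) → Fin n → ℕ}
    (hm : DFun k (fun u => m (s u))) (hN : DFun k (fun u => N (s u)))
    (hB : DFun k (fun u => B (s u))) (ha : DFun k a) (hz : DFun k z) :
    DFun k (fun u => up (pp m (a u) (s u)) (m1 m (s u)) (nn m N (a u) (s u)) (z u)) := by
  refine dfun_code (B := fun u => B (s u) + 1) (dfun_m1 hm) (dfun_nn hm hN ha)
    (hB.add (DFun.const 1)) (g := fun i u => dg (pp m (a u) (s u)) (z u) i) ?_
    (fun u => m1_two m _) (fun u => (band_bd hm0 hmN _ _).1)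
  exact dfun_dg (dfun_pp hm ha).weak hz.weak (DFun.proj 0) (fun u => pp_two m _ _)

theorem band_dn (hm0 : ∀ v, 0 < m v) (hmN : ∀ v, m v ^ N v ≤ B v) {k : ℕ}
    {a z : (Fin k → ℕ) → ℕ} {s : (Fin k → ℕ) → Fin n → ℕ}
    (hm : DFun k (fun u => m (s u))) (hN : DFun k (fun u => N (s u)))
    (hB : DFun k (fun u => B (s u))) (ha : DFun k a) (hz : DFun k z) :
    DFun k (fun u => dn (pp m (a u) (s u)) (m1 m (s u)) (nn m N (a u) (s u)) (z u)) := by
  refine dfun_code (B := fun u => B (s u) + 1) (dfun_pp hm ha) (dfun_nn hm hN ha)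
    (hB.add (DFun.const 1)) (g := fun i u => dg (m1 m (s u)) (z u) i % pp m (a u) (s u)) ?_
    (fun u => pp_two m _ _) (fun u => (band_bd hm0 hmN _ _).2)
  exact DFun.modAny (dfun_dg (dfun_m1 hm).weak hz.weak (DFun.proj 0) (fun u => m1_two m _))
    (dfun_pp hm ha).weak

end defin

/-- all positive moduli -/
theorem band_aff_pos {n r : ℕ} {m N B x t : (Fin n → ℕ) → ℕ} {T : ℕ → (Fin n → ℕ) → ℕ}
    (hm : DFun n m) (hN : DFun n N) (hB : DFun n B) (hx : DFun n x) (ht : DFun n t)
    (hT : DFun (n + 1) (fun w => T (w 0) (fun i => w i.succ))) (hm0 : ∀ v, 0 < m v)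
    (hmN : ∀ v, m v ^ N v ≤ B v) (hTb : ∀ v z, z < m v ^ N v → T z v < m v ^ N v)
    (haff : ∀ v, ∃ (A : Matrix (Fin (N v)) (Fin (N v)) (ZMod (m v))) (b : Fin (N v) → ZMod (m v)),
      BandRank r A ∧
      ∀ z, z < m v ^ N v → vecOf (m v) (N v) (T z v) = A.mulVec (vecOf (m v) (N v) z) + b)
    (hxb : ∀ v, x v < m v ^ N v) : DFun n (fun v => (fun z => T z v)^[t v] (x v)) := by
  classical
  -- the reduced iterate
  let Y : ℕ → (Fin n → ℕ) → ℕ := fun p v => (fun z => TT m N T p z v)^[t v]
    (dn (pp m p v) (m1 m v) (nn m N p v) (x v))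
  have hY : DFun (n + 1) (fun w => Y (w 0) (fun i => w i.succ)) := by
    refine band_aff_pp (r := r) (q := fun w => pp m (w 0) (fun i => w i.succ))
      (N := fun w => nn m N (w 0) (fun i => w i.succ)) (B := fun w => B (fun i => w i.succ) + 1)
      (x := fun w => dn (pp m (w 0) (fun i => w i.succ)) (m1 m (fun i => w i.succ))
        (nn m N (w 0) (fun i => w i.succ)) (x (fun i => w i.succ)))
      (t := fun w => t (fun i => w i.succ))
      (T := fun z w => TT m N T (w 0) z (fun i => w i.succ))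
      (dfun_pp hm.weak (DFun.proj 0)) (dfun_nn hm.weak hN.weak (DFun.proj 0))
      (hB.weak.add (DFun.const 1))
      (band_dn hm0 hmN hm.weak hN.weak hB.weak (DFun.proj 0) hx.weak) ht.weak ?_
      (fun w => pp_prime m _ _) (fun w => (band_bd hm0 hmN _ _).2) (fun w z _ => ?_) (fun w => ?_)
      (fun w => ?_)
    · have h1 := band_up (k := n + 1 + 1) (a := fun u => u 1) (z := fun u => u 0)
        (s := fun u i => u i.succ.succ) hm0 hmN hm.weak.weak hN.weak.weak hB.weak.weak
        (DFun.proj 1) (DFun.proj 0)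
      have h2 := comp' hT (k := n + 1 + 1) (s := fun i u => u i.succ.succ) h1
        (fun i => DFun.proj i.succ.succ)
      exact band_dn (k := n + 1 + 1) (a := fun u => u 1) (s := fun u i => u i.succ.succ)
        hm0 hmN hm.weak.weak hN.weak.weak hB.weak.weak (DFun.proj 1) h2
    · exact dn_lt (by have := pp_two m (w 0) (fun i => w i.succ); omega) _
    · set v : Fin n → ℕ := fun i => w i.succ
      by_cases hv : LinU.R11.Valid m (w 0) v
      · have e1 : nn m N (w 0) v = N v := by unfold nn; rw [if_pos hv]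
        have e2 : pp m (w 0) v = w 0 := by unfold pp; rw [if_pos hv]
        have e3 := m1_eq hv (hm0 v)
        unfold TT
        rw [e1, e2, e3]
        exact band_red (T := fun z => T z v) hv.1.pos (hm0 v) hv.2 (haff v)
      · have e1 : nn m N (w 0) v = 0 := by unfold nn; rw [if_neg hv]
        refine ⟨0, 0, ⟨0, 0, 0, fun _ _ _ => rfl, by simp⟩, fun z _ => funext fun i => ?_⟩
        have := i.isLt
        omega
    · exact dn_lt (by have := pp_two m (w 0) (fun i => w i.succ); omega) _
  -- the digits of the iterate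
  let R : (Fin n → ℕ) → ℕ := fun v => (fun z => T z v)^[t v] (x v)
  have hYR : ∀ p v, LinU.R11.Valid m p v → R v < m v ^ N v ∧
      ∀ i, i < N v → dg (pp m p v) (Y p v) i = dg (m v) (R v) i % p := by
    intro p v hv
    have e1 : nn m N p v = N v := by unfold nn; rw [if_pos hv]
    have e2 : pp m p v = p := by unfold pp; rw [if_pos hv]
    have e3 := m1_eq hv (hm0 v)
    have haff' : ∃ (A : Matrix (Fin (N v)) (Fin (N v)) (ZMod (m v))) (b : Fin (N v) → ZMod (m v)),
        ∀ z, z < m v ^ N v → vecOf (m v) (N v) (T z v) = A.mulVec (vecOf (m v) (N v) z) + b := by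
      obtain ⟨A, b, _, h⟩ := haff v
      exact ⟨A, b, h⟩
    have h := iter_red (T := fun z => T z v) hv.1.pos (hm0 v) hv.2 (hTb v) haff' (hxb v) (t v)
    simp only [Y, R, TT, e1, e2, e3]
    exact h
  have hRb : ∀ v, R v < m v ^ N v := by
    intro v
    have h : ∀ j, (fun z => T z v)^[j] (x v) < m v ^ N v := by
      intro j
      induction j with
      | zero => exact hxb v
      | succ j ih =>
        rw [Function.iterate_succ_apply']
        exact hTb v _ ih
    exact h (t v)
  let D : ℕ → (Fin n → ℕ) → ℕ := fun i v => if i < N v ∧ 2 ≤ m v then dg (m v) (R v) i else 0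
  have hD : DFun (n + 1) (fun w => D (w 0) (fun i => w i.succ)) := by
    refine DFun.ofGraph (b := fun w => m (fun i => w i.succ)) hm.weak (fun w => ?_) ?_
    · simp only [D]
      split_ifs
      · exact (dg_lt (hm0 _) _ _).le
      · exact Nat.zero_le _
    · have hv : ∀ {f : (Fin n → ℕ) → ℕ}, DFun n f →
          DFun (n + 1 + 1) (fun u => f (fun i => u i.succ.succ)) := fun hf => hf.weak.weak
      have h1 : Delta0 (n + 1 + 1 + 1) (fun w => LinU.R11.Valid m (w 0) (fun i => w i.succ.succ.succ) →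
          w 1 % w 0 = dg (pp m (w 0) (fun i => w i.succ.succ.succ))
            (Y (w 0) (fun i => w i.succ.succ.succ)) (w 2)) := by
        refine (delta_valid (k := n + 1 + 1 + 1) (s := fun w i => w i.succ.succ.succ)
          hm.weak.weak.weak (DFun.proj 0)).imp (Delta0.eqFun (DFun.modAny (DFun.proj 1)
          (DFun.proj 0)) (dfun_dg (dfun_pp (k := n + 1 + 1 + 1)
          (s := fun w i => w i.succ.succ.succ) hm.weak.weak.weak (DFun.proj 0))
          (comp' hY (k := n + 1 + 1 + 1) (s := fun i w => w i.succ.succ.succ) (DFun.proj 0)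
            (fun i => DFun.proj i.succ.succ.succ)) (DFun.proj 2) (fun u => pp_two m _ _)))
      have h2 := Delta0.ballFun (n := n + 1 + 1) (b := fun u => m (fun i => u i.succ.succ))
        (P := fun p u => LinU.R11.Valid m p (fun i => u i.succ.succ) →
          u 0 % p = dg (pp m p (fun i => u i.succ.succ)) (Y p (fun i => u i.succ.succ)) (u 1))
        (hv hm) h1
      have h3 : Delta0 (n + 1 + 1) (fun u => u 1 < N (fun i => u i.succ.succ) ∧
          2 ≤ m (fun i => u i.succ.succ)) :=
        (Delta0.ltFun (DFun.proj 1) (hv hN)).and (Delta0.leFun (DFun.const 2) (hv hm))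
      refine ((h3.and ((Delta0.ltFun (DFun.proj 0) (hv hm)).and h2)).or
        (h3.not.and (Delta0.eqFun (DFun.proj 0) (DFun.const 0)))).of_iff fun u => ?_
      set v : Fin n → ℕ := fun i => u i.succ.succ with hvdef
      change u 0 = (if u 1 < N v ∧ 2 ≤ m v then dg (m v) (R v) (u 1) else 0) ↔ _
      by_cases hc : u 1 < N v ∧ 2 ≤ m v
      · rw [if_pos hc]
        constructor
        · intro h
          refine Or.inl ⟨hc, ?_, fun p _ hp => ?_⟩
          · rw [h]; exact dg_lt (hm0 v) _ _
          · rw [h, (hYR p v hp).2 _ hc.1]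
        · rintro (⟨_, h5, h6⟩ | ⟨h5, _⟩)
          · refine eq_of_mod h5 (dg_lt (hm0 v) _ _) fun p hp hpm => ?_
            rw [h6 p (Nat.le_of_dvd (hm0 v) hpm) ⟨hp, hpm⟩, (hYR p v ⟨hp, hpm⟩).2 _ hc.1]
          · exact absurd hc h5
      · rw [if_neg hc]
        constructor
        · intro h
          exact Or.inr ⟨hc, h⟩
        · rintro (⟨h5, _⟩ | ⟨_, h5⟩)
          · exact absurd h5 hc
          · exact h5
  -- the code of the digits
  have hcode := dfun_code (m := m1 m) (d := fun v => if m v ≤ 1 then 0 else N v)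
    (B := fun v => B v + 1) (g := D) (dfun_m1 (k := n) (s := fun v => v) hm)
    (DFun.ite (Delta0.leFun hm (DFun.const 1)) (DFun.const 0) hN) (hB.add (DFun.const 1)) hD
    (m1_two m) (fun v => by
      unfold m1
      split_ifs with h
      · simp
      · exact (hmN v).trans (Nat.le_succ _))
  refine dfun_congr hcode fun v => ?_
  change R v = _
  by_cases h : m v ≤ 1
  · have h1 : m v = 1 := le_antisymm h (hm0 v)
    have h2 := hRb v
    rw [h1, one_pow] at h2
    rw [if_pos h, Finset.range_zero, Finset.sum_empty]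
    omega
  · rw [if_neg h]
    have h3 : m1 m v = m v := by unfold m1; rw [if_neg h]
    rw [h3]
    refine (code_dg (hRb v)).symm.trans (sum_congr rfl fun i hi => ?_)
    simp only [D]
    rw [if_pos ⟨mem_range.1 hi, by omega⟩]

/-- affine, all moduli -/
theorem band_aff_all {n r : ℕ} {m N B x t : (Fin n → ℕ) → ℕ} {T : ℕ → (Fin n → ℕ) → ℕ}
    (hm : DFun n m) (hN : DFun n N) (hB : DFun n B) (hx : DFun n x) (ht : DFun n t)
    (hT : DFun (n + 1) (fun w => T (w 0) (fun i => w i.succ)))
    (hmN : ∀ v, m v ^ N v ≤ B v) (hTb : ∀ v z, z < m v ^ N v → T z v < m v ^ N v)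
    (haff : ∀ v, ∃ (A : Matrix (Fin (N v)) (Fin (N v)) (ZMod (m v))) (b : Fin (N v) → ZMod (m v)),
      BandRank r A ∧
      ∀ z, z < m v ^ N v → vecOf (m v) (N v) (T z v) = A.mulVec (vecOf (m v) (N v) z) + b)
    (hxb : ∀ v, x v < m v ^ N v) : DFun n (fun v => (fun z => T z v)^[t v] (x v)) := by
  classical
  -- a vanishing modulus forces `N v = 0`
  have hz : ∀ v, m v = 0 → N v = 0 := by
    intro v h0
    by_contra hne
    have h1 := hxb v
    rw [h0, zero_pow hne] at h1
    exact Nat.not_lt_zero _ h1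
  let m' : (Fin n → ℕ) → ℕ := fun v => if m v ≤ 0 then 1 else m v
  have hm' : DFun n m' := DFun.ite (Delta0.leFun hm (DFun.const 0)) (DFun.const 1) hm
  have hpow : ∀ v, m' v ^ N v = m v ^ N v := by
    intro v
    simp only [m']
    split_ifs with h
    · rw [hz v (Nat.le_zero.mp h), pow_zero, pow_zero]
    · rfl
  refine band_aff_pos (r := r) (m := m') hm' hN hB hx ht hT (fun v => ?_)
    (fun v => by rw [hpow]; exact hmN v) (fun v => by rw [hpow]; exact hTb v) (fun v => ?_)
    (fun v => by rw [hpow]; exact hxb v)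
  · simp only [m']
    split_ifs <;> omega
  · by_cases h : m v ≤ 0
    · have h0 := hz v (Nat.le_zero.mp h)
      refine ⟨0, 0, ⟨0, 0, 0, fun _ _ _ => rfl, by simp⟩, fun z _ => funext fun i => ?_⟩
      have := i.isLt
      omega
    · have h1 : m' v = m v := by simp only [m']; rw [if_neg h]
      rw [h1]
      exact haff v

end Pool.Agent.H63LB
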