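import Mathlib

/-!
# Matrices which are the sum of a band matrix and a matrix of small rank
-/

set_option autoImplicit false

namespace Pool.Agent.H63LB

/-- `A = J + F * C`, where `J` has bandwidth `≤ r` and the inner dimension of `F * C` is `r`. -/
def BandRank {R : Type*} [CommRing R] (r : ℕ) {N : ℕ} (A : Matrix (Fin N) (Fin N) R) : Prop :=
  ∃ (J : Matrix (Fin N) (Fin N) R) (F : Matrix (Fin N) (Fin r) R) (C : Matrix (Fin r) (Fin N) R),
    (∀ i j : Fin N, (i : ℕ) + r < j ∨ (j : ℕ) + r < i → J i j = 0) ∧ A = J + F * C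

end Pool.Agent.H63LB
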