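import Pool.Agent.LinU.PD
import Pool.Agent.PTr.Chain

/-!
# Paths with small states

The existence of a path of length `L` with states in `[0, Q)^k` is defined by a bounded formula if
`L ≤ K ^ 2`, `Q ^ (K + 1) ≤ B` (guess every `K`-th state, then every block).

*Proof.* The formula: there are codes `c κ < Q ^ (K + 1)`, `κ < k`, such that for every `a < K` there are
codes `d κ < Q ^ (K + 1)` with `dg Q (d κ) 0 = dg Q (c κ) a`, `dg Q (d κ) K = dg Q (c κ) (a + 1)` and for
all `i < K` with `a K + i < L`: `E (a K + i) (digits i of d) (digits i + 1 of d) v`. (→) `c κ` has the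
digits `s (a K) κ`, `a ≤ K`, and `d κ` the digits `s (a K + i) κ`, `i ≤ K`. (←) `s (a K + i) κ` is the
digit `i` of `d κ` for `a`, for `i < K`, `a < K`, and `s (K K) κ = dg Q (c κ) K`.
-/

set_option autoImplicit false

namespace Pool.Agent.H63LB

open Finset Pool.Agent.Grz Pool.Agent.GAvg Pool.Agent.PTr Pool.Agent.MTr Pool.Agent.LPC
open Pool.Agent.ECD Pool.Agent.LinU

/-- `E` is definable after every substitution of functions in `DFun` -/
def PDelta {k n : ℕ} (E : ℕ → (Fin k → ℕ) → (Fin k → ℕ) → (Fin n → ℕ) → Prop) : Prop :=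
  ∀ (m : ℕ) (i : (Fin m → ℕ) → ℕ) (a b : Fin k → (Fin m → ℕ) → ℕ) (v : Fin n → (Fin m → ℕ) → ℕ),
    DFun m i → (∀ κ, DFun m (a κ)) → (∀ κ, DFun m (b κ)) → (∀ j, DFun m (v j)) →
      Delta0 m (fun w => E (i w) (fun κ => a κ w) (fun κ => b κ w) (fun j => v j w))

/-- the step number `i` of block number `a` with codes `d` -/
private def Stp {k n : ℕ} (Q K L : (Fin n → ℕ) → ℕ)
    (E : ℕ → (Fin k → ℕ) → (Fin k → ℕ) → (Fin n → ℕ) → Prop) (i a : ℕ) (d : Fin k → ℕ)
    (v : Fin n → ℕ) : Prop :=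
  ¬ (i < K v ∧ a * K v + i < L v ∧
    ¬ E (a * K v + i) (fun κ => dg (Q v) (d κ) i) (fun κ => dg (Q v) (d κ) (i + 1)) v)

/-- the block number `a` between the states coded by `c` -/
private def Blk {k n : ℕ} (Q K L : (Fin n → ℕ) → ℕ)
    (E : ℕ → (Fin k → ℕ) → (Fin k → ℕ) → (Fin n → ℕ) → Prop) (a : ℕ) (c d : Fin k → ℕ)
    (v : Fin n → ℕ) : Prop :=
  (∀ κ, dg (Q v) (d κ) 0 = dg (Q v) (c κ) a) ∧ (∀ κ, dg (Q v) (d κ) (K v) = dg (Q v) (c κ) (a + 1)) ∧
    ∀ i, i ≤ K v → Stp Q K L E i a d v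

/-- all blocks -/
private def All {k n : ℕ} (Q K L B : (Fin n → ℕ) → ℕ)
    (E : ℕ → (Fin k → ℕ) → (Fin k → ℕ) → (Fin n → ℕ) → Prop) (a : ℕ) (c : Fin k → ℕ)
    (v : Fin n → ℕ) : Prop :=
  ¬ (a < K v ∧ ¬ ∃ d : Fin k → ℕ, (∀ κ, d κ ≤ B v) ∧ Blk Q K L E a c d v)

section

variable {n k : ℕ} {Q K L B : (Fin n → ℕ) → ℕ}
  {E : ℕ → (Fin k → ℕ) → (Fin k → ℕ) → (Fin n → ℕ) → Prop}

private theorem stp_delta (hQ : DFun n Q) (hK : DFun n K) (hL : DFun n L) (h2 : ∀ v, 2 ≤ Q v)
    (hE : PDelta E) {m : ℕ} {i a : (Fin m → ℕ) → ℕ} {d : Fin k → (Fin m → ℕ) → ℕ}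
    {v : Fin n → (Fin m → ℕ) → ℕ} (hi : DFun m i) (ha : DFun m a) (hd : ∀ κ, DFun m (d κ))
    (hv : ∀ j, DFun m (v j)) :
    Delta0 m (fun w => Stp Q K L E (i w) (a w) (fun κ => d κ w) (fun j => v j w)) := by
  have hQ' : DFun m (fun w => Q (fun j => v j w)) := hQ.comp hv
  have hK' : DFun m (fun w => K (fun j => v j w)) := hK.comp hv
  have hL' : DFun m (fun w => L (fun j => v j w)) := hL.comp hv
  have hj : DFun m (fun w => a w * K (fun j => v j w) + i w) := (ha.mul hK').add hi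
  refine ((Delta0.ltFun hi hK').and ((Delta0.ltFun hj hL').and ?_)).not
  exact (hE m _ _ _ v hj (fun κ => dfun_dg hQ' (hd κ) hi fun w => h2 _)
    (fun κ => dfun_dg hQ' (hd κ) (hi.add (DFun.const 1)) fun w => h2 _) hv).not

private theorem blk_delta (hQ : DFun n Q) (hK : DFun n K) (hL : DFun n L) (h2 : ∀ v, 2 ≤ Q v)
    (hE : PDelta E) {m : ℕ} {a : (Fin m → ℕ) → ℕ} {c d : Fin k → (Fin m → ℕ) → ℕ}
    {v : Fin n → (Fin m → ℕ) → ℕ} (ha : DFun m a) (hc : ∀ κ, DFun m (c κ))
    (hd : ∀ κ, DFun m (d κ)) (hv : ∀ j, DFun m (v j)) :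
    Delta0 m (fun w => Blk Q K L E (a w) (fun κ => c κ w) (fun κ => d κ w) (fun j => v j w)) := by
  have hQ' : DFun m (fun w => Q (fun j => v j w)) := hQ.comp hv
  have hK' : DFun m (fun w => K (fun j => v j w)) := hK.comp hv
  refine (Delta0.allOf fun κ => ?_).and ((Delta0.allOf fun κ => ?_).and ?_)
  · exact Delta0.eqFun (dfun_dg hQ' (hd κ) (DFun.const 0) fun w => h2 _)
      (dfun_dg hQ' (hc κ) ha fun w => h2 _)
  · exact Delta0.eqFun (dfun_dg hQ' (hd κ) hK' fun w => h2 _)
      (dfun_dg hQ' (hc κ) (ha.add (DFun.const 1)) fun w => h2 _)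
  · exact Delta0.ballFun hK' (P := fun i w => Stp Q K L E i (a w) (fun κ => d κ w)
      (fun j => v j w)) (stp_delta hQ hK hL h2 hE (DFun.proj 0) ha.weak (fun κ => (hd κ).weak)
        (fun j => (hv j).weak))

private theorem all_delta (hQ : DFun n Q) (hK : DFun n K) (hL : DFun n L) (hB : DFun n B)
    (h2 : ∀ v, 2 ≤ Q v) (hE : PDelta E) {m : ℕ} {a : (Fin m → ℕ) → ℕ}
    {c : Fin k → (Fin m → ℕ) → ℕ} {v : Fin n → (Fin m → ℕ) → ℕ} (ha : DFun m a)
    (hc : ∀ κ, DFun m (c κ)) (hv : ∀ j, DFun m (v j)) :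
    Delta0 m (fun w => All Q K L B E (a w) (fun κ => c κ w) (fun j => v j w)) := by
  have hK' : DFun m (fun w => K (fun j => v j w)) := hK.comp hv
  have hB' : DFun m (fun w => B (fun j => v j w)) := hB.comp hv
  refine ((Delta0.ltFun ha hK').and (Delta0.not ?_)).not
  exact Delta0.bexVec hB' (P := fun d w => Blk Q K L E (a w) (fun κ => c κ w) d
    (fun j => v j w)) fun p x u hx hu => blk_delta hQ hK hL h2 hE (ha.comp hu)
      (fun κ => (hc κ).comp hu) hx (fun j => (hv j).comp hu)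

end

theorem path_delta {n k : ℕ} {Q K L B : (Fin n → ℕ) → ℕ} (hQ : DFun n Q) (hK : DFun n K)
    (hL : DFun n L) (hB : DFun n B) (h2 : ∀ v, 2 ≤ Q v) (hQK : ∀ v, Q v ^ (K v + 1) ≤ B v)
    (hLK : ∀ v, L v ≤ K v * K v) {E : ℕ → (Fin k → ℕ) → (Fin k → ℕ) → (Fin n → ℕ) → Prop}
    (hE : PDelta E) :
    Delta0 n (fun v => ∃ s : ℕ → Fin k → ℕ, (∀ i κ, s i κ < Q v) ∧
      ∀ i, i < L v → E i (s i) (s (i + 1)) v) := by
  have hmain : Delta0 n (fun v => ∃ c : Fin k → ℕ, (∀ κ, c κ ≤ B v) ∧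
      ∀ a, a ≤ K v → All Q K L B E a c v) := by
    refine Delta0.bexVec hB (P := fun c v => ∀ a, a ≤ K v → All Q K L B E a c v)
      fun m x v hx hv => ?_
    exact Delta0.ballFun (hK.comp hv) (P := fun a w => All Q K L B E a (fun κ => x κ w)
      (fun j => v j w)) (all_delta hQ hK hL hB h2 hE (DFun.proj 0) (fun κ => (hx κ).weak)
        (fun j => (hv j).weak))
  refine hmain.of_iff fun v => ?_
  have hQ0 : 0 < Q v := by have := h2 v; omega
  constructor
  · rintro ⟨s, hs, hE⟩
    have hcode : ∀ (g : ℕ → ℕ), (∀ i, g i < Q v) →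
        ∑ i ∈ range (K v + 1), g i * Q v ^ i ≤ B v := fun g hg =>
      ((lt_code hQ0 g fun i _ => hg i).le).trans (hQK v)
    refine ⟨fun κ => ∑ i ∈ range (K v + 1), s (i * K v) κ * Q v ^ i,
      fun κ => hcode _ fun i => hs _ _, fun a _ => ?_⟩
    rintro ⟨ha, hn⟩
    refine hn ⟨fun κ => ∑ i ∈ range (K v + 1), s (a * K v + i) κ * Q v ^ i,
      fun κ => hcode _ fun i => hs _ _, fun κ => ?_, fun κ => ?_, fun i _ => ?_⟩
    · rw [dg_code hQ0 (fun i => s (a * K v + i) κ) (fun i _ => hs _ _) (by omega),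
        dg_code hQ0 (fun i => s (i * K v) κ) (fun i _ => hs _ _) (by omega), Nat.add_zero]
    · rw [dg_code hQ0 (fun i => s (a * K v + i) κ) (fun i _ => hs _ _) (by omega),
        dg_code hQ0 (fun i => s (i * K v) κ) (fun i _ => hs _ _) (by omega), Nat.succ_mul]
    · rintro ⟨hi, hj, hne⟩
      have h := hE _ hj
      have h3 : (fun κ => dg (Q v) (∑ i ∈ range (K v + 1), s (a * K v + i) κ * Q v ^ i) i) =
          s (a * K v + i) := by
        funext κ
        exact dg_code hQ0 (fun i => s (a * K v + i) κ) (fun i _ => hs _ _) (by omega)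
      have h4 : (fun κ => dg (Q v) (∑ i ∈ range (K v + 1), s (a * K v + i) κ * Q v ^ i) (i + 1)) =
          s (a * K v + i + 1) := by
        funext κ
        rw [dg_code hQ0 (fun i => s (a * K v + i) κ) (fun i _ => hs _ _) (by omega), Nat.add_assoc]
      rw [h3, h4] at hne
      exact hne h
  · rintro ⟨c, -, hc⟩
    have h5 : ∀ a, a < K v → ∃ d : Fin k → ℕ, Blk Q K L E a c d v := by
      intro a ha
      by_contra h6
      refine hc a ha.le ⟨ha, ?_⟩
      rintro ⟨d, -, hd⟩
      exact h6 ⟨d, hd⟩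
    choose! d hd using h5
    refine ⟨fun j κ => if j < K v * K v then dg (Q v) (d (j / K v) κ) (j % K v)
      else dg (Q v) (c κ) (K v), fun i κ => ?_, fun j hj => ?_⟩
    · dsimp only
      split_ifs <;> exact dg_lt hQ0 _ _
    · have hjK : j < K v * K v := lt_of_lt_of_le hj (hLK v)
      have hK0 : 0 < K v := by
        rcases Nat.eq_zero_or_pos (K v) with h | h
        · rw [h] at hjK
          omega
        · exact h
      have ha : j / K v < K v := (Nat.div_lt_iff_lt_mul hK0).2 hjK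
      have hi : j % K v < K v := Nat.mod_lt _ hK0
      have hji : j / K v * K v + j % K v = j := Nat.div_add_mod' j (K v)
      obtain ⟨-, hd2, hd3⟩ := hd _ ha
      have h7 := hd3 _ hi.le
      unfold Stp at h7
      rw [hji] at h7
      have h8 : E j (fun κ => dg (Q v) (d (j / K v) κ) (j % K v))
          (fun κ => dg (Q v) (d (j / K v) κ) (j % K v + 1)) v := by
        by_contra h9
        exact h7 ⟨hi, hj, h9⟩
      convert h8 using 1
      · funext κ
        dsimp only
        rw [if_pos hjK]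
      · funext κ
        dsimp only
        by_cases h10 : j % K v + 1 < K v
        · have h11 : (j + 1) / K v = j / K v := by
            rw [← hji, Nat.add_assoc]
            rw [Nat.mul_comm, Nat.mul_add_div hK0, Nat.mul_add_div hK0, Nat.div_eq_of_lt h10,
              Nat.div_eq_of_lt hi]
          have h12 : (j + 1) % K v = j % K v + 1 := by
            have h13 := Nat.div_add_mod' (j + 1) (K v)
            rw [h11] at h13
            omega
          have h14 : j + 1 < K v * K v := by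
            have h15 : (j / K v + 1) * K v ≤ K v * K v := Nat.mul_le_mul_right _ ha
            rw [Nat.succ_mul] at h15
            omega
          rw [if_pos h14, h11, h12]
        · have h11 : j % K v + 1 = K v := by omega
          have h12 : j + 1 = (j / K v + 1) * K v := by
            rw [Nat.succ_mul]
            omega
          rw [h11, hd2]
          by_cases h13 : j / K v + 1 < K v
          · have h14 : j + 1 < K v * K v := by
              rw [h12]
              exact Nat.mul_lt_mul_of_pos_right h13 hK0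
            rw [if_pos h14, h12, Nat.mul_div_cancel _ hK0, Nat.mul_mod_left]
            exact (hd _ h13).1 κ
          · have h14 : j / K v + 1 = K v := by omega
            have h15 : ¬ j + 1 < K v * K v := by
              rw [h12, h14]
              exact lt_irrefl _
            rw [if_neg h15, h14]

end Pool.Agent.H63LB
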