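import Pool.Agent.H63LB.RelB

/-!
# Package RelA: from a solution to a path (pure)

`st i κ` = code (digits `l < e`) of the cell `i + κ - r`, i.e. of `(u l (i + κ - r))_(l < e)`, if
`r ≤ i + κ` and `i + κ < N + r`, and `0` otherwise; `st i (2 r + 1 + s)` = code of
`∑_(i' < i) C s i' * u l i'`; `lam s` the same for `i = N`. `J i j = A i j - fc i j` is `0` out of the band.
-/

set_option autoImplicit false

namespace Pool.Agent.H63LB

open Finset Polynomial Pool.Agent.LinU

open RB in
theorem rr_of_sol {q N e r x j g U : ℕ} {T : ℕ → ℕ} {F C : Fin r → ℕ} (hq : 2 ≤ q) (he : 1 ≤ e)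
    (hj : j < N) (hU : U < q ^ e) {A : Matrix (Fin N) (Fin N) (ZMod q)}
    (hA : ∀ z, z < q ^ N → vecOf q N (T z) = A.mulVec (vecOf q N z)) (hV : Valid q N r T F C)
    {u : ℕ → Fin N → ZMod q}
    (hs : SolR.Sol A.mulVecLin (vecOf q N x) e (mu (ZMod q) q e g) u)
    (hu : ∀ l, l < e → ((dg q U l : ℕ) : ZMod q) = u l ⟨j, hj⟩) :
    RR q N e r x T j F C g U := by
  have hN : 1 ≤ N := by omega
  -- codes
  have hco : ∀ f : ℕ → ZMod q, ∃ z, z < q ^ e ∧ ∀ l, l < e → ((dg q z l : ℕ) : ZMod q) = f l := by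
    intro f
    obtain ⟨z, hz, hz2⟩ := A7.exists_code hq e (fun l : Fin e => f l)
    exact ⟨z, hz, fun l hl => congrFun hz2 ⟨l, hl⟩⟩
  choose co hco1 hco2 using hco
  have huniq : ∀ z f, z < q ^ e → (∀ l, l < e → ((dg q z l : ℕ) : ZMod q) = f l) → z = co f := by
    intro z f hz h
    refine dg_ext hz (hco1 f) fun l hl => ?_
    have h1 := (h l hl).trans (hco2 f l hl).symm
    rw [ZMod.natCast_eq_natCast_iff', Nat.mod_eq_of_lt (dg_lt (by omega) _ _),
      Nat.mod_eq_of_lt (dg_lt (by omega) _ _)] at h1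
    exact h1
  -- cells and partial sums
  obtain ⟨cv, hcv⟩ : ∃ cv : ℕ → ℕ → ZMod q, cv = fun i l => if h : i < N then u l ⟨i, h⟩ else 0 :=
    ⟨_, rfl⟩
  have hcv1 : ∀ i (hi : i < N) l, cv i l = u l ⟨i, hi⟩ := by
    intro i hi l
    rw [hcv]
    exact dif_pos hi
  obtain ⟨av, hav⟩ : ∃ av : ℕ → Fin r → ℕ → ZMod q,
      av = fun i s l => ∑ j' ∈ range i, ((dg q (C s) j' : ℕ) : ZMod q) * cv j' l := ⟨_, rfl⟩
  obtain ⟨st, hst⟩ : ∃ st : ℕ → Fin (2 * r + 1 + r) → ℕ,
      st = fun (i : ℕ) (κ : Fin (2 * r + 1 + r)) => if h : (κ : ℕ) < 2 * r + 1 then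
        (if r ≤ i + (κ : ℕ) ∧ i + (κ : ℕ) < N + r then co (cv (i + (κ : ℕ) - r)) else 0)
      else co (av i ⟨(κ : ℕ) - (2 * r + 1), by have := κ.2; omega⟩) := ⟨_, rfl⟩
  have hax1 : ∀ i κ, κ < 2 * r + 1 → ax (st i) κ =
      if r ≤ i + κ ∧ i + κ < N + r then co (cv (i + κ - r)) else 0 := by
    intro i κ hκ
    unfold ax
    rw [dif_pos (by omega : κ < 2 * r + 1 + r), hst]
    simp only
    rw [dif_pos hκ]
  have hax2 : ∀ i (s : Fin r), ax (st i) (2 * r + 1 + s) = co (av i s) := by
    intro i s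
    have hs' := s.2
    unfold ax
    rw [dif_pos (by omega : 2 * r + 1 + (s : ℕ) < 2 * r + 1 + r), hst]
    simp only
    rw [dif_neg (by omega)]
    congr 2
    ext
    simp
  have hcen : ∀ i, i < N → ax (st i) r = co (cv i) := by
    intro i hi
    rw [hax1 i r (by omega), if_pos (by omega), Nat.add_sub_cancel]
  refine ⟨fun s => co (av N s), fun s => hco1 _, st, ?_, ?_⟩
  · intro i κ
    rw [hst]
    simp only
    split_ifs
    · exact hco1 _
    · exact pow_pos (by omega) _
    · exact hco1 _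
  · intro i hi
    refine ⟨?_, ?_, ?_, ?_, ?_, ?_⟩
    · intro κ hκ
      rw [hax1 _ _ (by omega), hax1 _ _ (by omega), show i + 1 + κ = i + (κ + 1) by omega]
    · intro l hl
      rw [← ZMod.natCast_eq_natCast_iff']
      set J : ℕ → ZMod q := fun j' => ((ac q N T i j' : ℕ) : ZMod q) -
        ((fc q r F C i j' : ℕ) : ZMod q) with hJ
      have hJ0 : ∀ j', j' < N → (i + r < j' ∨ j' + r < i) → J j' = 0 := by
        intro j' hj' hb
        have h3 := hV i hi j' hj' hb
        rw [← ZMod.natCast_eq_natCast_iff'] at h3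
        rw [hJ]
        simp only
        rw [h3, sub_self]
      have h4 := band_sum (N := N) (r := r) (i := i) J (fun j' => cv j' l) hJ0
      have h8 : ((∑ κ ∈ range (2 * r + 1), if r ≤ i + κ ∧ i + κ < N + r then
          (ac q N T i (i + κ - r) + (q - 1) * fc q r F C i (i + κ - r)) * dg q (ax (st i) κ) l
          else 0 : ℕ) : ZMod q) =
          ∑ κ ∈ range (2 * r + 1), (if r ≤ i + κ ∧ i + κ < N + r then
            J (i + κ - r) * cv (i + κ - r) l else 0) := by
        rw [Nat.cast_sum]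
        refine Finset.sum_congr rfl fun κ hκ => ?_
        by_cases hc : r ≤ i + κ ∧ i + κ < N + r
        · rw [if_pos hc, if_pos hc, hax1 _ _ (mem_range.1 hκ), if_pos hc, Nat.cast_mul,
            hco2 _ l hl, Nat.cast_add, Nat.cast_mul, qm1 (by omega), hJ]
          ring
        · rw [if_neg hc, if_neg hc, Nat.cast_zero]
      have h9 : ((∑ s : Fin r, dg q (F s) i * dg q (co (av N s)) l : ℕ) : ZMod q) =
          ∑ j' ∈ range N, ((fc q r F C i j' : ℕ) : ZMod q) * cv j' l := by
        rw [Nat.cast_sum]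
        have h7 : ∀ s : Fin r, ((dg q (F s) i * dg q (co (av N s)) l : ℕ) : ZMod q) =
            ∑ j' ∈ range N, ((dg q (F s) i : ℕ) : ZMod q) * (((dg q (C s) j' : ℕ) : ZMod q) *
              cv j' l) := by
          intro s
          rw [Nat.cast_mul, hco2 _ l hl, hav, Finset.mul_sum]
        simp only [h7]
        rw [Finset.sum_comm]
        refine Finset.sum_congr rfl fun j' _ => ?_
        unfold fc
        push_cast
        rw [Finset.sum_mul]
        refine Finset.sum_congr rfl fun s _ => ?_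
        ring
      have h2 : (A.mulVec (u l)) ⟨i, hi⟩ =
          ∑ j' ∈ range N, ((ac q N T i j' : ℕ) : ZMod q) * cv j' l := by
        rw [← Fin.sum_univ_eq_sum_range (fun j' => ((ac q N T i j' : ℕ) : ZMod q) * cv j' l) N]
        show (∑ j' : Fin N, A ⟨i, hi⟩ j' * u l j') =
          ∑ j' : Fin N, ((ac q N T i j' : ℕ) : ZMod q) * cv j' l
        refine Finset.sum_congr rfl fun j' _ => ?_
        rw [ac_cast hq hA hi j'.2, hcv1 j' j'.2]
      have h5 : ∑ j' ∈ range N, ((ac q N T i j' : ℕ) : ZMod q) * cv j' l =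
          ∑ j' ∈ range N, J j' * cv j' l +
          ∑ j' ∈ range N, ((fc q r F C i j' : ℕ) : ZMod q) * cv j' l := by
        rw [← Finset.sum_add_distrib]
        refine Finset.sum_congr rfl fun j' _ => ?_
        rw [hJ]
        ring
      have h1 : (A.mulVec (u l)) ⟨i, hi⟩ =
          (if l = 0 then (0 : Fin N → ZMod q) else u (l - 1)) ⟨i, hi⟩ -
          (mu (ZMod q) q e g).coeff l * u (e - 1) ⟨i, hi⟩ -
          (if l = 0 then vecOf q N x else 0) ⟨i, hi⟩ := congrFun (hs l hl) ⟨i, hi⟩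
      rw [A7.mu_coeff, if_pos hl] at h1
      rw [Nat.cast_add, Nat.cast_add, Nat.cast_add, h8, h4, h9, ← h5, ← h2, h1, Nat.cast_mul,
        hcen i hi, hco2 _ (e - 1) (by omega), hcv1 i hi]
      by_cases h0 : l = 0
      · simp only [if_pos h0]
        have h10 : vecOf q N x ⟨i, hi⟩ = ((dg q x i : ℕ) : ZMod q) := rfl
        rw [h10, Pi.zero_apply]
        push_cast
        ring
      · simp only [if_neg h0]
        rw [Pi.zero_apply, hco2 _ (l - 1) (by omega), hcv1 i hi]
        push_cast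
        ring
    · rintro rfl
      rw [hcen i hi]
      refine (huniq U _ hU fun l hl => ?_).symm
      rw [hu l hl, hcv1 i hi]
    · rintro rfl s
      rw [hax2]
      refine (huniq 0 _ (pow_pos (by omega) _) fun l hl => ?_).symm
      rw [A7.dg_zero, hav]
      simp
    · intro s l hl
      rw [← ZMod.natCast_eq_natCast_iff', hax2, hax2, hcen i hi, Nat.cast_add, Nat.cast_mul,
        hco2 _ l hl, hco2 _ l hl, hco2 _ l hl, hav]
      simp only
      rw [Finset.sum_range_succ]
    · rintro rfl s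
      rw [hax2]

end Pool.Agent.H63LB
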